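import Pool.Agent.W524.SH.Iff

/-! Exact order of magnitude and short windows. -/

set_option autoImplicit false

namespace Pool.Agent.W524.SH

open MeasureTheory Filter Topology Set Classical
open Pool.Agent.W263.EP Pool.Agent.W263.MN Pool.Agent.W263.LG Pool.Agent.W263.MS
open Pool.Agent.H341R2 (NormSys)
open Pool.Agent.W524.LV (QQ lead f0 f0_meas WUp WLo KK log_QQ EOrd)
open Pool.Agent.W263.BSD (isOpen_half LInt)
open scoped ENNReal

variable {S : NormSys} {Bs : Finset S.X} {bad : Set S.X} {B : S.X → Polynomial ℂ}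
  {tr : S.X → ℕ → ℝ} {ω : ℝ} {D : ℝ} {F : ℂ → ℂ} {r : ℕ} {L : ℝ}

/-- the bounded form of the Tauberian theorem -/
theorem taub_bdd {γ : ℝ → ℝ} {C K M : ℝ} (hK0 : 0 < K) (hM : 0 ≤ M)
    (hC : ∀ᶠ U : ℝ in atTop, ∫⁻ u in Ioc U (2 * U), ENNReal.ofReal (γ u ^ 2) ≤
      ENNReal.ofReal (C / U))
    (h : ∃ u0 : ℝ, ∀ u v, u0 ≤ u → u ≤ v → v ≤ u + K / u → γ v ≤ γ u + M) :
    ∃ M' : ℝ, ∀ᶠ u : ℝ in atTop, |γ u| ≤ M' := by
  set T : ℝ := √(4 * (|C| + 1) / K) with hT
  have hT0 : 0 < T := Real.sqrt_pos.mpr (by positivity)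
  have hTK : T ^ 2 * K = 4 * (|C| + 1) := by
    rw [hT, Real.sq_sqrt (by positivity)]
    field_simp
  obtain ⟨u0, hu0⟩ := h
  obtain ⟨U1, hU1⟩ := eventually_atTop.mp hC
  refine ⟨M + T, ?_⟩
  filter_upwards [eventually_ge_atTop (max (2 * max u0 1) (max (2 * max U1 1) (K + 1)))] with u hu
  have b1 : 2 * max u0 1 ≤ u := (le_max_left _ _).trans hu
  have b2 : 2 * max U1 1 ≤ u := (le_max_left _ _).trans ((le_max_right _ _).trans hu)
  have b3 : K + 1 ≤ u := (le_max_right _ _).trans ((le_max_right _ _).trans hu)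
  have c1 := le_max_left u0 1
  have c2 := le_max_right u0 1
  have c3 := le_max_left U1 1
  have c4 := le_max_right U1 1
  have hu2 : 2 ≤ u := by linarith
  have hupos : 0 < u := by linarith
  have hKu : K / (2 * u) ≤ u / 2 := by
    rw [div_le_div_iff₀ (by positivity) (by norm_num)]
    nlinarith
  have hKu0 : 0 < K / (2 * u) := by positivity
  have hfin : ∀ a b : ℝ, b - a = K / (2 * u) → ∀ U : ℝ, U1 ≤ U → u / 2 ≤ U → 0 < U →
      Ioc a b ⊆ Ioc U (2 * U) → (∀ v ∈ Ioc a b, T ≤ |γ v|) → False := by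
    intro a b hab U hU hU' hUp hsub hγ
    have h1 := window_lower hT0 hγ
    have h2 : ∫⁻ v in Ioc a b, ENNReal.ofReal (γ v ^ 2) ≤
        ∫⁻ v in Ioc U (2 * U), ENNReal.ofReal (γ v ^ 2) := lintegral_mono_set hsub
    have h3 := (h1.trans h2).trans (hU1 U hU)
    have h4 : C / U ≤ 2 * |C| / u := by
      rw [div_le_div_iff₀ hUp hupos]
      have : 0 ≤ |C| := abs_nonneg C
      have : C ≤ |C| := le_abs_self C
      nlinarith
    have h5 := h3.trans (ENNReal.ofReal_le_ofReal h4)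
    rw [ENNReal.ofReal_le_ofReal_iff (by positivity), hab] at h5
    have h6 : T ^ 2 * (K / (2 * u)) = 2 * (|C| + 1) / u := by
      rw [show T ^ 2 * (K / (2 * u)) = (T ^ 2 * K) / (2 * u) by field_simp, hTK]
      field_simp
      ring
    rw [h6, div_le_div_iff_of_pos_right hupos] at h5
    linarith
  by_contra hcon
  have hcon' : M + T ≤ |γ u| := (not_le.mp hcon).le
  rcases le_or_gt 0 (γ u) with hs | hs
  · rw [abs_of_nonneg hs] at hcon'
    refine hfin (u - K / (2 * u)) u (by ring) (u / 2) (by linarith) le_rfl (by linarith) ?_ ?_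
    · intro v hv
      exact ⟨by linarith [hv.1], by linarith [hv.2]⟩
    · intro v hv
      have hv0 : 0 < v := by linarith [hv.1]
      have e1 : K / u ≤ K / v := div_le_div_of_nonneg_left hK0.le hv0 hv.2
      have e2 : K / (2 * u) ≤ K / u := div_le_div_of_nonneg_left hK0.le hupos (by linarith)
      have h1 := hu0 v u (by linarith [hv.1]) hv.2 (by linarith [hv.1])
      refine le_trans ?_ (le_abs_self _)
      linarith
  · rw [abs_of_neg hs] at hcon'
    refine hfin u (u + K / (2 * u)) (by ring) u (by linarith) (by linarith) hupos ?_ ?_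
    · intro v hv
      exact ⟨hv.1, by linarith [hv.2]⟩
    · intro v hv
      have e2 : K / (2 * u) ≤ K / u := div_le_div_of_nonneg_left hK0.le hupos (by linarith)
      have h1 := hu0 u v (by linarith) hv.1.le (by linarith [hv.2])
      refine le_trans ?_ (neg_le_abs _)
      linarith

/-- the short upper windows with constants -/
def BUp (Q : ℝ → ℝ) (K C : ℝ) : Prop :=
  ∀ᶠ x : ℝ in atTop, ∀ y, x ≤ y → y ≤ x * (1 + K / Real.log x) → Q y ≤ C * Q x

/-- the short lower windows with constants -/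
def BLo (Q : ℝ → ℝ) (K C : ℝ) : Prop :=
  ∀ᶠ x : ℝ in atTop, ∀ y, x ≤ y → y ≤ x * (1 + K / Real.log x) → Q x ≤ C * Q y

theorem incr_of_BUp {K C : ℝ} (hK : 0 < K) (hC : 0 < C) (h : BUp (PP S bad tr ω) K C) :
    ∃ u0 : ℝ, ∀ u v, u0 ≤ u → u ≤ v → v ≤ u + K / 2 / u →
      aa S (tn S bad tr ω) v ≤ aa S (tn S bad tr ω) u + |Real.log C| := by
  obtain ⟨X, hX⟩ := eventually_atTop.mp h
  refine ⟨max (Real.log (max X 1)) (max 1 (K / 2)), fun u v e1 e2 e3 => ?_⟩
  have g1 := (le_max_left _ _).trans e1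
  have g2 := (le_max_left _ _).trans ((le_max_right _ _).trans e1)
  have g3 := (le_max_right _ _).trans ((le_max_right _ _).trans e1)
  have h5 : X ≤ Real.exp u := by
    have e2 : 0 < max X 1 := lt_of_lt_of_le one_pos (le_max_right _ _)
    rw [Real.log_le_iff_le_exp e2] at g1
    exact (le_max_left _ _).trans g1
  have h8 := exp_short (show 0 < K / 2 by positivity) g2 g3 e3
  rw [mul_div_cancel₀ K two_ne_zero] at h8
  have h6 := hX (Real.exp u) h5 (Real.exp v) (Real.exp_le_exp.mpr e2) h8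
  have h7 := Real.log_le_log (PP_pos _) h6
  rw [Real.log_mul hC.ne' (PP_pos _).ne', log_PP, log_PP] at h7
  linarith [le_abs_self (Real.log C)]

theorem incr_of_BLo {K C : ℝ} (hK : 0 < K) (hC : 0 < C) (h : BLo (PP S bad tr ω) K C) :
    ∃ u0 : ℝ, ∀ u v, u0 ≤ u → u ≤ v → v ≤ u + K / 2 / u →
      -aa S (tn S bad tr ω) v ≤ -aa S (tn S bad tr ω) u + |Real.log C| := by
  obtain ⟨X, hX⟩ := eventually_atTop.mp h
  refine ⟨max (Real.log (max X 1)) (max 1 (K / 2)), fun u v e1 e2 e3 => ?_⟩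
  have g1 := (le_max_left _ _).trans e1
  have g2 := (le_max_left _ _).trans ((le_max_right _ _).trans e1)
  have g3 := (le_max_right _ _).trans ((le_max_right _ _).trans e1)
  have h5 : X ≤ Real.exp u := by
    have e2 : 0 < max X 1 := lt_of_lt_of_le one_pos (le_max_right _ _)
    rw [Real.log_le_iff_le_exp e2] at g1
    exact (le_max_left _ _).trans g1
  have h8 := exp_short (show 0 < K / 2 by positivity) g2 g3 e3
  rw [mul_div_cancel₀ K two_ne_zero] at h8
  have h6 := hX (Real.exp u) h5 (Real.exp v) (Real.exp_le_exp.mpr e2) h8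
  have h7 := Real.log_le_log (PP_pos _) h6
  rw [Real.log_mul hC.ne' (PP_pos _).ne', log_PP, log_PP] at h7
  linarith [le_abs_self (Real.log C)]

/-- bounded deviation gives windows of fixed multiplicative length -/
theorem WUp_of_bdd (E : TData S (tn S bad tr ω) D) {C0 M : ℝ}
    (h : ∀ᶠ u : ℝ in atTop, |f0 S (tn S bad tr ω) r C0 u| ≤ M) :
    ∃ l C : ℝ, 1 < l ∧ 0 < C ∧ WUp (PP S bad tr ω) l C := by
  obtain ⟨U, hU⟩ := eventually_atTop.mp h
  obtain ⟨M2, h2⟩ := E.sc_bounded
  obtain ⟨u3, hu3, h3⟩ := Pool.Agent.W524.LV.log_short r (b := Real.log 2) (ε := 1) one_pos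
  refine ⟨2, Real.exp (2 * M + 2 * M2 + 1), by norm_num, Real.exp_pos _, ?_⟩
  filter_upwards [eventually_ge_atTop (Real.exp (max U (max u3 1)))] with x hx y h4 h5
  have hx0 : 0 < x := lt_of_lt_of_le (Real.exp_pos _) hx
  have hy0 : 0 < y := by linarith
  set u := Real.log x with hu
  set v := Real.log y with hv
  have e1 : max U (max u3 1) ≤ u := (Real.le_log_iff_exp_le hx0).mpr hx
  have g1 : U ≤ u := (le_max_left _ _).trans e1
  have g2 : u3 ≤ u := (le_max_left _ _).trans ((le_max_right _ _).trans e1)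
  have g3 : 1 ≤ u := (le_max_right _ _).trans ((le_max_right _ _).trans e1)
  have huv : u ≤ v := Real.log_le_log hx0 h4
  have hvu : v ≤ u + Real.log 2 := by
    rw [hv, hu, ← Real.log_mul hx0.ne' two_ne_zero]
    exact Real.log_le_log hy0 (by linarith)
  have a1 := abs_le.mp (hU u g1)
  have a2 := abs_le.mp (hU v (g1.trans huv))
  have a3 := abs_le.mp (h2 u (by linarith))
  have a4 := abs_le.mp (h2 v (by linarith))
  have a5 := h3 u v g2 huv hvu
  have hx' : PP S bad tr ω x = Real.exp (aa S (tn S bad tr ω) u) := by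
    rw [← log_PP, Real.exp_log (PP_pos _), hu, Real.exp_log hx0]
  have hy' : PP S bad tr ω y = Real.exp (aa S (tn S bad tr ω) v) := by
    rw [← log_PP, Real.exp_log (PP_pos _), hv, Real.exp_log hy0]
  rw [hx', hy', ← Real.exp_add]
  refine Real.exp_le_exp.mpr ?_
  unfold f0 at a1 a2
  linarith [a1.1, a1.2, a2.1, a2.2, a3.1, a3.2, a4.1, a4.2, a5.1, a5.2]

section Growth

variable (E : TData S (tn S (Bs : Set S.X) tr ω) D)
  (hB : ∀ x ∈ Bs, ∀ s : ℂ, (ω + 1) / 2 ≤ s.re → (B x).eval (((S.N x : ℕ) : ℂ) ^ (-s)) ≠ 0)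
  (hd : ∀ s : ℂ, (ω + 1) / 2 - 1 < s.re → DifferentiableAt ℂ F s)
  (he : ∀ s : ℂ, (ω + 2) / 2 < s.re → F s = LFB S Bs B tr s)

include E hB hd he in
/-- **Short one-sided windows and the exact order of magnitude.** -/
theorem order_short (hS : SlowSys S) (hr : analyticOrderAt F (((ω + 1) / 2 : ℝ) : ℂ) = r)
    (hg : ∃ (C : ℝ) (A : ℕ), ∀ s : ℂ, (ω + 1) / 2 - 1 < s.re → ‖F s‖ ≤ C * (1 + ‖s‖) ^ A) :
    List.TFAE [
      EOrd (PP S (Bs : Set S.X) tr ω) r,
      ∃ m : ℝ, EOrd (PP S (Bs : Set S.X) tr ω) m,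
      ∃ K C : ℝ, 0 < K ∧ 0 < C ∧ BUp (PP S (Bs : Set S.X) tr ω) K C,
      (∀ s : ℝ, (ω + 1) / 2 < s → F s ≠ 0) ∧
        ∃ K C : ℝ, 0 < K ∧ 0 < C ∧ BLo (PP S (Bs : Set S.X) tr ω) K C] := by
  have hAn := an_centre (ω := ω) hd
  have hF := isContB hd he
  obtain ⟨Φ, P, hO, hΛ, hbc, hlim, hne⟩ := Pool.Agent.W524.LV.centre E hB hF hAn hr
  have T := Pool.Agent.W524.LV.order_tfae' E hS hB hF hAn hr
  have hshort : ∀ l : ℝ, 1 < l → ∀ᶠ x : ℝ in atTop, x * (1 + 1 / Real.log x) ≤ l * x := by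
    intro l hl
    filter_upwards [eventually_gt_atTop 1, Real.tendsto_log_atTop.eventually
      (eventually_ge_atTop (1 / (l - 1)))] with x h1 h2
    have h3 : 0 < Real.log x := Real.log_pos h1
    have hl0 : 0 < l - 1 := by linarith
    have h4 : 1 / Real.log x ≤ l - 1 := by
      rw [div_le_iff₀ h3]
      rw [div_le_iff₀ hl0] at h2
      linarith
    nlinarith
  tfae_have 1 → 2 := (T.out 0 1).mp
  tfae_have 2 → 3 := by
    intro h
    obtain ⟨l, C, hl, hC, h5⟩ := (T.out 1 2).mp h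
    refine ⟨1, C, one_pos, hC, ?_⟩
    filter_upwards [h5, hshort l hl] with x h1 h2 y h3 h4
    exact h1 y h3 (h4.trans h2)
  tfae_have 2 → 4 := by
    intro h
    obtain ⟨h0, l, C, hl, hC, h5⟩ := (T.out 1 3).mp h
    refine ⟨h0, 1, C, one_pos, hC, ?_⟩
    filter_upwards [h5, hshort l hl] with x h1 h2 y h3 h4
    exact h1 y h3 (h4.trans h2)
  tfae_have 3 → 1 := by
    rintro ⟨K, C, hK, hC, h⟩
    obtain ⟨u1, h1⟩ := incr_of_BUp hK hC h
    have hconv : ∀ w > 0, LInt (aa S (tn S (Bs : Set S.X) tr ω)) w :=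
      P.conv_of_upper fun ε hε => quad_of_incr (half_pos hK) (abs_nonneg _) h1 hε
    obtain ⟨C', hC0', hC'⟩ := dyadic_RH E hB hd he hr hg (rh_of_conv E hB hd he hconv)
    obtain ⟨u2, h2⟩ := Pool.Agent.W524.LV.sc_short E hS (b := 1) one_pos
    obtain ⟨u3, hu3, h3⟩ := Pool.Agent.W524.LV.log_short r (b := 1) one_pos
    obtain ⟨M, hM⟩ := taub_bdd (γ := f0 S (tn S (Bs : Set S.X) tr ω) r (C00 S Bs B ω F r))
      (half_pos hK) (show 0 ≤ |Real.log C| + 1 by positivity)
      ((eventually_ge_atTop 1).mono fun U hU => hC' U hU)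
      ⟨max (max u1 u2) (max u3 (K / 2)), fun u v e1 e2 e3 => by
        have g1 := ((le_max_left _ _).trans (le_max_left _ _)).trans e1
        have g2 := ((le_max_right _ _).trans (le_max_left _ _)).trans e1
        have g3 := ((le_max_left _ _).trans (le_max_right _ _)).trans e1
        have g4 := ((le_max_right _ _).trans (le_max_right _ _)).trans e1
        have hu0 : 0 < u := by linarith
        have e4 : K / 2 / u ≤ 1 := by rw [div_le_one hu0]; exact g4
        have a1 := h1 u v g1 e2 e3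
        have a2 := (abs_le.mp (h2 u v g2 e2 (by linarith))).1
        have a3 := (h3 u v g3 e2 (by linarith)).1
        unfold f0
        linarith⟩
    exact (T.out 2 0).mp (WUp_of_bdd E hM)
  tfae_have 4 → 1 := by
    rintro ⟨h0, K, C, hK, hC, h⟩
    obtain ⟨u1, h1⟩ := incr_of_BLo hK hC h
    have hconv : ∀ w > 0, LInt (aa S (tn S (Bs : Set S.X) tr ω)) w := by
      refine P.conv_of_lower (hne h0) fun ε hε => ?_
      filter_upwards [quad_of_incr (f := fun u => -aa S (tn S (Bs : Set S.X) tr ω) u)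
        (half_pos hK) (abs_nonneg _) h1 hε] with u hu
      linarith
    obtain ⟨C', hC0', hC'⟩ := dyadic_RH E hB hd he hr hg (rh_of_conv E hB hd he hconv)
    obtain ⟨u2, h2⟩ := Pool.Agent.W524.LV.sc_short E hS (b := 1) one_pos
    obtain ⟨u3, hu3, h3⟩ := Pool.Agent.W524.LV.log_short r (b := 1) one_pos
    obtain ⟨M, hM⟩ := taub_bdd
      (γ := fun u => -f0 S (tn S (Bs : Set S.X) tr ω) r (C00 S Bs B ω F r) u)
      (half_pos hK) (show 0 ≤ |Real.log C| + 2 by positivity)
      ((eventually_ge_atTop 1).mono fun U hU => by simpa only [neg_sq] using hC' U hU)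
      ⟨max (max u1 u2) (max u3 (K / 2)), fun u v e1 e2 e3 => by
        have g1 := ((le_max_left _ _).trans (le_max_left _ _)).trans e1
        have g2 := ((le_max_right _ _).trans (le_max_left _ _)).trans e1
        have g3 := ((le_max_left _ _).trans (le_max_right _ _)).trans e1
        have g4 := ((le_max_right _ _).trans (le_max_right _ _)).trans e1
        have hu0 : 0 < u := by linarith
        have e4 : K / 2 / u ≤ 1 := by rw [div_le_one hu0]; exact g4
        have a1 := h1 u v g1 e2 e3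
        have a2 := (abs_le.mp (h2 u v g2 e2 (by linarith))).2
        have a3 := (h3 u v g3 e2 (by linarith)).2
        unfold f0
        linarith⟩
    refine (T.out 2 0).mp (WUp_of_bdd E (M := M) (r := r) (C0 := C00 S Bs B ω F r) ?_)
    filter_upwards [hM] with u hu
    rwa [abs_neg] at hu
  tfae_finish

end Growth

end Pool.Agent.W524.SH
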