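import Pool.Agent.W524.SH.Land3

/-! The logarithmic derivative in boxes. -/

set_option autoImplicit false

namespace Pool.Agent.W524.SH

open MeasureTheory Filter Topology Set Metric
open Pool.Agent.W743.BE Pool.Agent.W263.MS

/-- a multiset as a family -/
theorem fam' (s : Multiset ℂ) : ∃ (n : ℕ) (ρ : Fin n → ℂ), Multiset.card s = n ∧
    (∀ z, z ∈ s → ∃ i, ρ i = z) ∧ (∀ i, ρ i ∈ s) ∧ ∀ f : ℂ → ℝ, (s.map f).sum = ∑ i, f (ρ i) := by
  induction s using Multiset.induction_on with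
  | empty => exact ⟨0, fun i => i.elim0, by simp, by simp, fun i => i.elim0, by simp⟩
  | cons a s ih =>
    obtain ⟨n, ρ, h1, h2, h3, h4⟩ := ih
    refine ⟨n + 1, Fin.cons a ρ, by simp [h1], ?_, ?_, ?_⟩
    · intro z hz
      rcases Multiset.mem_cons.mp hz with h | h
      · exact ⟨0, by simp [h]⟩
      · obtain ⟨i, hi⟩ := h2 z h
        exact ⟨i.succ, by simpa using hi⟩
    · intro i
      refine Fin.cases ?_ (fun j => ?_) i
      · simp
      · simpa using Or.inr (h3 j)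
    · intro f
      rw [Multiset.map_cons, Multiset.sum_cons, h4 f, Fin.sum_univ_succ]
      simp

/-- **The logarithmic derivative in a box.** -/
theorem logder_box {f : ℂ → ℂ} {C m : ℝ} {A : ℕ} (hm : 0 < m)
    (hf : ∀ w : ℂ, -1 < w.re → DifferentiableAt ℂ f w)
    (hf0 : ∀ w : ℂ, 0 < w.re → f w ≠ 0)
    (hg : ∀ w : ℂ, -1 < w.re → ‖f w‖ ≤ C * (1 + ‖w‖) ^ A)
    (hlow : ∀ w : ℂ, w.re = 2 → m ≤ ‖f w‖) :
    ∃ K : ℝ, 0 ≤ K ∧ ∀ y0 : ℝ, ∃ (n : ℕ) (ρ : Fin n → ℂ), (n : ℝ) ≤ K * (1 + |y0|) ^ (1 / 4 : ℝ) ∧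
      (∀ i, (ρ i).re ≤ 0) ∧
      ∀ σ : ℝ, 0 < σ → σ ≤ 1 → ∀ y : ℝ, |y - y0| ≤ 1 / 2 →
        ‖deriv f ((σ : ℂ) + y * Complex.I) / f ((σ : ℂ) + y * Complex.I)‖ ≤
          K * (1 + |y0|) ^ (1 / 4 : ℝ) + ∑ i, 1 / ‖(σ : ℂ) + y * Complex.I - ρ i‖ := by
  set q : ℝ := 1 / Real.log (29 / 10 / (5 / 2)) with hq
  have hlog1 : 0 < Real.log (29 / 10 / (5 / 2) : ℝ) := Real.log_pos (by norm_num)
  have hq0 : 0 < q := by rw [hq]; positivity
  set lr : ℝ := Real.log (5 / 2 / (29 / 10 - 5 / 2)) with hlr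
  have hlr0 : 0 ≤ lr := Real.log_nonneg (by norm_num)
  set KB : ℝ := |Real.log ((|C| + 1) / m)| + A * (Real.log 6 + 4) with hKB
  have hlog6 : 0 ≤ Real.log 6 := Real.log_nonneg (by norm_num)
  have hKB0 : 0 ≤ KB := by positivity
  set KE : ℝ := 2 * (KB + KB * q * lr + 1) * (11 / 5) / (5 / 2 - 11 / 5) / (11 / 5 - 21 / 10) with hKE
  have hKE0 : 0 ≤ KE := by
    rw [hKE]
    have : (0 : ℝ) ≤ 5 / 2 - 11 / 5 := by norm_num
    have : (0 : ℝ) ≤ 11 / 5 - 21 / 10 := by norm_num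
    positivity
  refine ⟨KE + q * KB, by positivity, fun y0 => ?_⟩
  set Y : ℝ := (1 + |y0|) ^ (1 / 4 : ℝ) with hY
  have hY1 : 1 ≤ Y := Real.one_le_rpow (by linarith [abs_nonneg y0]) (by norm_num)
  set c : ℂ := 2 + y0 * Complex.I with hc
  have hcre : c.re = 2 := by simp [hc]
  have hcim : c.im = y0 := by simp [hc]
  have hcn : ‖c‖ ≤ 2 + |y0| := by
    rw [hc]
    refine (norm_add_le _ _).trans ?_
    rw [norm_mul, Complex.norm_I, mul_one, Complex.norm_real, Real.norm_eq_abs]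
    simp
  set M : ℝ := |C| * (6 + |y0|) ^ A + 1 with hM
  have hM1 : 1 ≤ M := by
    have : 0 ≤ |C| * (6 + |y0|) ^ A := by positivity
    linarith
  have hball : ∀ z ∈ closedBall c (29 / 10), -1 < z.re := by
    intro z hz
    rw [mem_closedBall, dist_eq_norm] at hz
    have h1 := (abs_le.mp ((Complex.abs_re_le_norm (z - c)).trans hz)).1
    rw [Complex.sub_re, hcre] at h1
    linarith
  have hb : ∀ z ∈ closedBall c (29 / 10), ‖f z‖ ≤ M := by
    intro z hz
    refine (hg z (hball z hz)).trans ?_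
    rw [mem_closedBall, dist_eq_norm] at hz
    have h1 : ‖z‖ ≤ 5 + |y0| := by
      calc ‖z‖ = ‖(z - c) + c‖ := by congr 1; ring
        _ ≤ ‖z - c‖ + ‖c‖ := norm_add_le _ _
        _ ≤ 29 / 10 + (2 + |y0|) := add_le_add hz hcn
        _ ≤ _ := by linarith
    calc C * (1 + ‖z‖) ^ A ≤ |C| * (1 + ‖z‖) ^ A :=
          mul_le_mul_of_nonneg_right (le_abs_self C) (by positivity)
      _ ≤ |C| * (6 + |y0|) ^ A := by
          refine mul_le_mul_of_nonneg_left ?_ (abs_nonneg C)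
          exact pow_le_pow_left₀ (by positivity) (by linarith) A
      _ ≤ M := by rw [hM]; linarith
  have hfan : AnalyticOnNhd ℂ f (closedBall c (29 / 10)) := by
    intro z hz
    refine Complex.analyticAt_iff_eventually_differentiableAt.mpr ?_
    have ho : IsOpen {w : ℂ | -1 < w.re} := isOpen_lt continuous_const Complex.continuous_re
    filter_upwards [ho.mem_nhds (hball z hz)] with w hw using hf w hw
  have hmc : m ≤ ‖f c‖ := hlow c hcre
  have hfc : 0 < ‖f c‖ := hm.trans_le hmc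
  have hcmem : c ∈ closedBall c (29 / 10) := mem_closedBall_self (by norm_num)
  obtain ⟨s, hcard, hsz, hs⟩ := landau3 (f := f) (c := c) (r := 5 / 2) (r1 := 11 / 5) (r2 := 21 / 10)
    (R := 29 / 10) (M := M) (by norm_num) (by norm_num) (by norm_num) (by norm_num) (by norm_num)
    hM1 (hb c hcmem) hfan (norm_pos_iff.mp hfc) hb
  set B : ℝ := Real.log (M / ‖f c‖) with hB
  have hB0 : 0 ≤ B := Real.log_nonneg (by rw [le_div_iff₀ hfc]; linarith [hb c hcmem])
  have hBY : B ≤ KB * Y := by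
    have h6 : 0 < (6 : ℝ) + |y0| := by positivity
    have e1 : M / ‖f c‖ ≤ (|C| + 1) / m * (6 + |y0|) ^ A := by
      have h7 : M ≤ (|C| + 1) * (6 + |y0|) ^ A := by
        have h8 : (1 : ℝ) ≤ (6 + |y0|) ^ A := one_le_pow₀ (by linarith [abs_nonneg y0])
        rw [hM]; nlinarith [abs_nonneg C]
      calc M / ‖f c‖ ≤ M / m := div_le_div_of_nonneg_left (by linarith) hm hmc
        _ ≤ (|C| + 1) * (6 + |y0|) ^ A / m := by gcongr
        _ = _ := by ring
    have e2 : B ≤ Real.log ((|C| + 1) / m) + A * Real.log (6 + |y0|) := by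
      rw [hB]
      refine (Real.log_le_log (by positivity) e1).trans (le_of_eq ?_)
      rw [Real.log_mul (by positivity) (by positivity), Real.log_pow]
    have e3 : Real.log (6 + |y0|) ≤ (Real.log 6 + 4) * Y := by
      have h8 : Real.log (6 + |y0|) ≤ Real.log (6 * (1 + |y0|)) :=
        Real.log_le_log h6 (by linarith [abs_nonneg y0])
      rw [Real.log_mul (by norm_num) (by positivity)] at h8
      have h9 := log_le_qr (y := 1 + |y0|) (by linarith [abs_nonneg y0])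
      rw [← hY] at h9
      nlinarith
    have e4 : (A : ℝ) * Real.log (6 + |y0|) ≤ A * ((Real.log 6 + 4) * Y) :=
      mul_le_mul_of_nonneg_left e3 (Nat.cast_nonneg A)
    have e5 := le_abs_self (Real.log ((|C| + 1) / m))
    have e6 : |Real.log ((|C| + 1) / m)| ≤ |Real.log ((|C| + 1) / m)| * Y :=
      le_mul_of_one_le_right (abs_nonneg _) hY1
    rw [hKB]
    linarith
  set E : ℝ := 2 * (B + B / Real.log (29 / 10 / (5 / 2)) * lr + 1) * (11 / 5) /
    (5 / 2 - 11 / 5) / (11 / 5 - 21 / 10) with hE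
  have hBq : B / Real.log (29 / 10 / (5 / 2)) = B * q := by rw [hq]; ring
  have hEY : E ≤ KE * Y := by
    have h1 : B + B / Real.log (29 / 10 / (5 / 2)) * lr + 1 ≤ (KB + KB * q * lr + 1) * Y := by
      rw [hBq]
      have h2 : B * q * lr ≤ KB * Y * q * lr := by gcongr
      nlinarith
    rw [hE, hKE]
    have e : 2 * (KB + KB * q * lr + 1) * (11 / 5) / (5 / 2 - 11 / 5) / (11 / 5 - 21 / 10) * Y =
        2 * ((KB + KB * q * lr + 1) * Y) * (11 / 5) / (5 / 2 - 11 / 5) / (11 / 5 - 21 / 10) := by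
      ring
    rw [e]
    have : (0 : ℝ) < 5 / 2 - 11 / 5 := by norm_num
    have : (0 : ℝ) < 11 / 5 - 21 / 10 := by norm_num
    gcongr
  obtain ⟨n, ρ, hn, hmem, hmem2, hsum⟩ := fam' s
  have hre0 : ∀ ρ' ∈ s, ρ'.re ≤ 0 := by
    intro ρ' hρ'
    by_contra h
    exact hf0 ρ' (not_le.mp h) (hsz ρ' hρ').2
  refine ⟨n, ρ, ?_, fun i => hre0 _ (hmem2 i), ?_⟩
  · rw [← hn]
    refine hcard.trans ?_
    rw [hBq]
    have h1 : B * q ≤ KB * Y * q := by gcongr
    have h2 : 0 ≤ KE * Y := by positivity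
    linarith
  · intro σ hσ hσ1 y hy
    have hzb : (σ : ℂ) + y * Complex.I ∈ closedBall c (21 / 10) := by
      rw [mem_closedBall, dist_eq_norm]
      have h1 : ‖(σ : ℂ) + y * Complex.I - c‖ ^ 2 = (σ - 2) ^ 2 + (y - y0) ^ 2 := by
        rw [← Complex.normSq_eq_norm_sq, Complex.normSq_apply, Complex.sub_re, Complex.sub_im,
          hcre, hcim]
        simp
        ring
      have h2 : (σ - 2) ^ 2 ≤ 4 := by nlinarith
      have h3 : (y - y0) ^ 2 ≤ 1 / 4 := by
        have := abs_le.mp hy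
        nlinarith [this.1, this.2]
      have h4 : ‖(σ : ℂ) + y * Complex.I - c‖ ^ 2 ≤ (21 / 10) ^ 2 := by rw [h1]; norm_num; linarith
      exact (pow_le_pow_iff_left₀ (norm_nonneg _) (by norm_num) two_ne_zero).mp h4
    obtain ⟨_, h5⟩ := hs _ hzb (fun ρ' hρ' he => by
      have h6 := hre0 ρ' hρ'
      rw [← he] at h6
      simp at h6
      linarith)
    rw [hsum] at h5
    have h7 : E ≤ (KE + q * KB) * Y := by
      have : 0 ≤ q * KB * Y := by positivity
      linarith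
    refine h5.trans ?_
    rw [add_comm]
    exact add_le_add h7 le_rfl

end Pool.Agent.W524.SH
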