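import Pool.Agent.W524.SH.Main

/-! The criteria. -/

set_option autoImplicit false

namespace Pool.Agent.W524.SH

open MeasureTheory Filter Topology Set Classical
open Pool.Agent.W263.EP Pool.Agent.W263.MN Pool.Agent.W263.LG Pool.Agent.W263.MS
open Pool.Agent.H341R2 (NormSys)
open Pool.Agent.W524.LV (QQ lead f0 f0_meas WUp WLo KK log_QQ)
open Pool.Agent.W263.BSD (isOpen_half LInt)
open Pool.Agent.W524.DY (integral_log_change')
open scoped ENNReal

variable {S : NormSys} {Bs : Finset S.X} {bad : Set S.X} {B : S.X → Polynomial ℂ}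
  {tr : S.X → ℕ → ℝ} {ω : ℝ} {D : ℝ} {F : ℂ → ℂ} {r : ℕ} {L : ℝ}

/-- the value of the constant in `f0` -/
noncomputable def C00 (S : NormSys) (Bs : Finset S.X) (B : S.X → Polynomial ℂ) (ω : ℝ) (F : ℂ → ℂ)
    (r : ℕ) : ℝ :=
  -Real.log (lead F ((ω + 1) / 2) r * bc S Bs B ω) + r * Real.eulerMascheroniConstant

theorem lim_of_zero (E : TData S (tn S (Bs : Set S.X) tr ω) D) (hbc : 0 < bc S Bs B ω)
    (hΛ : 0 < lead F ((ω + 1) / 2) r)
    (h : Tendsto (f0 S (tn S (Bs : Set S.X) tr ω) r (C00 S Bs B ω F r)) atTop (𝓝 0)) :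
    Tendsto (fun x : ℝ => QQ S Bs B tr ω x / Real.log x ^ r) atTop
        (𝓝 (Real.exp (r * Real.eulerMascheroniConstant) / lead F ((ω + 1) / 2) r)) := by
  have h0 := Pool.Agent.W524.LV.ff_of_f0 h
  have h1 := (PS_of_ff E (mul_pos hΛ hbc) h0).const_mul (bc S Bs B ω)
  have h2 : bc S Bs B ω * (Real.exp (r * Real.eulerMascheroniConstant) /
      (lead F ((ω + 1) / 2) r * bc S Bs B ω)) =
      Real.exp (r * Real.eulerMascheroniConstant) / lead F ((ω + 1) / 2) r := by
    field_simp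
  rw [h2] at h1
  refine h1.congr fun x => ?_
  unfold QQ
  ring

section Growth

variable (E : TData S (tn S (Bs : Set S.X) tr ω) D)
  (hB : ∀ x ∈ Bs, ∀ s : ℂ, (ω + 1) / 2 ≤ s.re → (B x).eval (((S.N x : ℕ) : ℂ) ^ (-s)) ≠ 0)
  (hd : ∀ s : ℂ, (ω + 1) / 2 - 1 < s.re → DifferentiableAt ℂ F s)
  (he : ∀ s : ℂ, (ω + 2) / 2 < s.re → F s = LFB S Bs B tr s)

include hd in
theorem an_centre : AnalyticAt ℂ F (((ω + 1) / 2 : ℝ) : ℂ) := by
  refine Complex.analyticAt_iff_eventually_differentiableAt.mpr ?_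
  filter_upwards [(isOpen_half ((ω + 1) / 2 - 1)).mem_nhds
    (show (ω + 1) / 2 - 1 < ((((ω + 1) / 2 : ℝ)) : ℂ).re by
      rw [Complex.ofReal_re]; linarith)] with z hz using hd z hz

include hd he in
theorem isContB : IsContB S Bs B tr ω F := by
  refine ⟨fun s hs => ?_, fun s hs => he s (by simpa using hs)⟩
  refine Complex.analyticAt_iff_eventually_differentiableAt.mpr ?_
  filter_upwards [(isOpen_half ((ω + 1) / 2 - 1)).mem_nhds
    (show (ω + 1) / 2 - 1 < (s : ℂ).re by rw [Complex.ofReal_re]; linarith)] with z hz using hd z hz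

include E hB hd he in
/-- convergence gives the Riemann hypothesis -/
theorem rh_of_conv (hconv : ∀ w > 0, LInt (aa S (tn S (Bs : Set S.X) tr ω)) w) :
    ∀ s : ℂ, (ω + 1) / 2 < s.re → F s ≠ 0 := by
  obtain ⟨G, hG, _⟩ := Pool.Agent.W524.LV.ext_of_conv E hB (isContB hd he) hconv
  intro s hs
  have h2 : AnalyticOnNhd ℂ F {s : ℂ | (ω + 1) / 2 < s.re} :=
    DifferentiableOn.analyticOnNhd (fun s hs => (hd s (by
      have hs' : (ω + 1) / 2 < s.re := hs
      linarith)).differentiableWithinAt) (isOpen_half _)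
  have h3 : AnalyticOnNhd ℂ G {s : ℂ | (ω + 1) / 2 < s.re} := hG.1.analyticOnNhd (isOpen_half _)
  have h4 := h2.eqOn_of_preconnected_of_eventuallyEq h3 (Pool.Agent.W263.BSD.preconn_half _)
    (show (((ω + 2) / 2 + 1 : ℝ) : ℂ) ∈ {s : ℂ | (ω + 1) / 2 < s.re} by
      show (ω + 1) / 2 < (((ω + 2) / 2 + 1 : ℝ) : ℂ).re
      rw [Complex.ofReal_re]; linarith) (by
      filter_upwards [(isOpen_half ((ω + 2) / 2)).mem_nhds
        (show (ω + 2) / 2 < (((ω + 2) / 2 + 1 : ℝ) : ℂ).re by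
          rw [Complex.ofReal_re]; linarith)] with z hz
      rw [he z hz, hG.2.2 z hz])
  rw [h4 hs]
  exact hG.2.1 s hs

include E hB hd he in
/-- the dyadic mean squares, under the Riemann hypothesis -/
theorem dyadic_RH (hr : analyticOrderAt F (((ω + 1) / 2 : ℝ) : ℂ) = r)
    (hg : ∃ (C : ℝ) (A : ℕ), ∀ s : ℂ, (ω + 1) / 2 - 1 < s.re → ‖F s‖ ≤ C * (1 + ‖s‖) ^ A)
    (hRH : ∀ s : ℂ, (ω + 1) / 2 < s.re → F s ≠ 0) :
    ∃ C : ℝ, 0 ≤ C ∧ ∀ U : ℝ, 1 ≤ U → ∫⁻ u in Ioc U (2 * U),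
      ENNReal.ofReal (f0 S (tn S (Bs : Set S.X) tr ω) r (C00 S Bs B ω F r) u ^ 2) ≤
        ENNReal.ofReal (C / U) := by
  have hAn := an_centre (ω := ω) hd
  set F1 : ℂ → ℂ := fun s => F s * BB S Bs B s with hF1
  have hA1 : AnalyticAt ℂ F1 (((ω + 1) / 2 : ℝ) : ℂ) := hAn.mul (BB_diff.analyticAt _)
  have hr1 := Pool.Agent.W524.LV.order_BB (S := S) (Bs := Bs) (B := B) hB hAn hr
  have hn : meromorphicOrderAt F1 (((ω + 1) / 2 : ℝ) : ℂ) = ((r : ℤ) : WithTop ℤ) := by
    rw [hA1.meromorphicOrderAt_eq, hF1, hr1]; rfl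
  have hL1 : CLim ((ω + 1) / 2) F1 ((r : ℤ) : ℝ) (Real.log (lead F ((ω + 1) / 2) r *
      bc S Bs B ω)) := by
    rw [Int.cast_natCast]
    exact Pool.Agent.W524.LQ.centre_clim (S := S) (Bs := Bs) (B := B) hB hAn hr
  have hd1 : ∀ s : ℂ, (ω + 1) / 2 - 1 < s.re → DifferentiableAt ℂ F1 s := fun s hs =>
    (hd s hs).mul BB_diff.differentiableAt
  have he1 : ∀ s : ℂ, (ω + 2) / 2 < s.re → F1 s = LF S (Bs : Set S.X) tr s := by
    intro s hs
    rw [hF1]
    simp only []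
    rw [he s hs, LFB_eq E hs, mul_assoc, inv_mul_cancel₀, mul_one]
    exact BB_ne hB (by linarith)
  have hg1 : ∃ (C : ℝ) (A : ℕ), ∀ s : ℂ, (ω + 1) / 2 - 1 < s.re →
      ‖F1 s‖ ≤ C * (1 + ‖s‖) ^ A := by
    obtain ⟨M, hM⟩ := Pool.Agent.W524.LQ.BB_bdd' (S := S) (Bs := Bs) (B := B) ((ω + 1) / 2 - 1)
    obtain ⟨C, A, hC⟩ := hg
    refine ⟨|C| * |M|, A, fun s hs => ?_⟩
    rw [hF1]
    simp only []
    rw [norm_mul]
    have h1 := hC s hs
    have h2 := hM s hs.le
    have h3 : 0 ≤ (1 + ‖s‖) ^ A := by positivity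
    calc ‖F s‖ * ‖BB S Bs B s‖ ≤ (|C| * (1 + ‖s‖) ^ A) * |M| :=
          mul_le_mul (h1.trans (mul_le_mul_of_nonneg_right (le_abs_self C) h3))
            (h2.trans (le_abs_self M)) (norm_nonneg _) (by positivity)
      _ = _ := by ring
  have hfull : IsFull S (Bs : Set S.X) tr ω F1 := by
    refine ⟨fun s hs => (hd1 s (by
      have hs' : (ω + 1) / 2 < s.re := hs
      linarith)).differentiableWithinAt, fun s hs => ?_, he1⟩
    exact mul_ne_zero (hRH s hs) (BB_ne hB hs.le)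
  exact dyadic_f0 E hfull hd1 hn hL1 hg1

include E hB hd he in
/-- **Short one-sided windows and the limit.** -/
theorem window_tfae (hS : SlowSys S) (hr : analyticOrderAt F (((ω + 1) / 2 : ℝ) : ℂ) = r)
    (hg : ∃ (C : ℝ) (A : ℕ), ∀ s : ℂ, (ω + 1) / 2 - 1 < s.re → ‖F s‖ ≤ C * (1 + ‖s‖) ^ A) :
    List.TFAE [
      Tendsto (fun x : ℝ => QQ S Bs B tr ω x / Real.log x ^ r) atTop
        (𝓝 (Real.exp (r * Real.eulerMascheroniConstant) / lead F ((ω + 1) / 2) r)),
      ∃ m A : ℝ, 0 < A ∧ Tendsto (fun x : ℝ => QQ S Bs B tr ω x / Real.log x ^ m) atTop (𝓝 A),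
      SUp (PP S (Bs : Set S.X) tr ω),
      (∀ s : ℝ, (ω + 1) / 2 < s → F s ≠ 0) ∧ SLo (PP S (Bs : Set S.X) tr ω)] := by
  have hAn := an_centre (ω := ω) hd
  have hF := isContB hd he
  obtain ⟨Φ, P, hO, hΛ, hbc, hlim, hne⟩ := Pool.Agent.W524.LV.centre E hB hF hAn hr
  have hΛ' : 0 < lead F ((ω + 1) / 2) r := hΛ
  have T := Pool.Agent.W524.LV.limit_tfae' E hS hB hF hAn hr
  have hshort : ∀ K : ℝ, ∀ᶠ x : ℝ in atTop, x * (1 + K / Real.log x) ≤ 2 * x := by
    intro K
    filter_upwards [eventually_gt_atTop 1, Real.tendsto_log_atTop.eventually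
      (eventually_ge_atTop K)] with x h1 h2
    have h3 : 0 < Real.log x := Real.log_pos h1
    have h4 : K / Real.log x ≤ 1 := by rw [div_le_one h3]; exact h2
    nlinarith
  tfae_have 1 → 2 := (T.out 0 1).mp
  tfae_have 2 → 3 := by
    intro h
    have h5 := (T.out 1 4).mp h
    intro ε K hε hK
    filter_upwards [(h5.2 2 (1 + ε) (by norm_num) (by linarith)).1, hshort K] with x h1 h2 y h3 h4
    exact h1 y h3 (h4.trans h2)
  tfae_have 2 → 4 := by
    intro h
    have h5 := (T.out 1 4).mp h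
    refine ⟨h5.1, fun ε K hε hK => ?_⟩
    filter_upwards [(h5.2 2 (1 + ε) (by norm_num) (by linarith)).2, hshort K] with x h1 h2 y h3 h4
    exact h1 y h3 (h4.trans h2)
  tfae_have 3 → 1 := by
    intro h
    have hi := incr_of_SUp h
    have hconv : ∀ w > 0, LInt (aa S (tn S (Bs : Set S.X) tr ω)) w := by
      obtain ⟨u0, h1⟩ := hi 1 1 one_pos one_pos
      exact P.conv_of_upper fun ε hε => quad_of_incr one_pos zero_le_one h1 hε
    obtain ⟨C, hC0, hC⟩ := dyadic_RH E hB hd he hr hg (rh_of_conv E hB hd he hconv)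
    refine lim_of_zero E hbc hΛ' (taub (C := C)
      ((eventually_ge_atTop 1).mono fun U hU => hC U hU) fun ε K hε hK => ?_)
    obtain ⟨u1, h1⟩ := hi (ε / 2) K (half_pos hε) hK
    obtain ⟨u2, h2⟩ := Pool.Agent.W524.LV.sc_short E hS (b := 1) (half_pos hε)
    obtain ⟨u3, hu3, h3⟩ := Pool.Agent.W524.LV.log_short r (b := 1) (half_pos hε)
    refine ⟨max (max u1 u2) (max u3 K), fun u v e1 e2 e3 => ?_⟩
    have g1 := ((le_max_left _ _).trans (le_max_left _ _)).trans e1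
    have g2 := ((le_max_right _ _).trans (le_max_left _ _)).trans e1
    have g3 := ((le_max_left _ _).trans (le_max_right _ _)).trans e1
    have g4 := ((le_max_right _ _).trans (le_max_right _ _)).trans e1
    have hu0 : 0 < u := by linarith
    have e4 : K / u ≤ 1 := by rw [div_le_one hu0]; exact g4
    have a1 := h1 u v g1 e2 e3
    have a2 := (abs_le.mp (h2 u v g2 e2 (by linarith))).1
    have a3 := (h3 u v g3 e2 (by linarith)).1
    unfold f0
    linarith
  tfae_have 4 → 1 := by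
    rintro ⟨h0, h⟩
    have hi := incr_of_SLo h
    have hconv : ∀ w > 0, LInt (aa S (tn S (Bs : Set S.X) tr ω)) w := by
      obtain ⟨u0, h1⟩ := hi 1 1 one_pos one_pos
      refine P.conv_of_lower (hne h0) fun ε hε => ?_
      filter_upwards [quad_of_incr (f := fun u => -aa S (tn S (Bs : Set S.X) tr ω) u) one_pos
        zero_le_one h1 hε] with u hu
      linarith
    obtain ⟨C, hC0, hC⟩ := dyadic_RH E hB hd he hr hg (rh_of_conv E hB hd he hconv)
    have hneg : Tendsto (fun u => -f0 S (tn S (Bs : Set S.X) tr ω) r (C00 S Bs B ω F r) u)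
        atTop (𝓝 0) := by
      refine taub (C := C) ((eventually_ge_atTop 1).mono fun U hU => by
        simpa only [neg_sq] using hC U hU) fun ε K hε hK => ?_
      obtain ⟨u1, h1⟩ := hi (ε / 3) K (by positivity) hK
      obtain ⟨u2, h2⟩ := Pool.Agent.W524.LV.sc_short E hS (b := 1) (show 0 < ε / 3 by positivity)
      obtain ⟨u3, hu3, h3⟩ := Pool.Agent.W524.LV.log_short r (b := 1)
        (show 0 < ε / 3 by positivity)
      refine ⟨max (max u1 u2) (max u3 K), fun u v e1 e2 e3 => ?_⟩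
      have g1 := ((le_max_left _ _).trans (le_max_left _ _)).trans e1
      have g2 := ((le_max_right _ _).trans (le_max_left _ _)).trans e1
      have g3 := ((le_max_left _ _).trans (le_max_right _ _)).trans e1
      have g4 := ((le_max_right _ _).trans (le_max_right _ _)).trans e1
      have hu0 : 0 < u := by linarith
      have e4 : K / u ≤ 1 := by rw [div_le_one hu0]; exact g4
      have a1 := h1 u v g1 e2 e3
      have a2 := (abs_le.mp (h2 u v g2 e2 (by linarith))).2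
      have a3 := (h3 u v g3 e2 (by linarith)).2
      unfold f0
      linarith
    have h9 := hneg.neg
    simp only [neg_neg, neg_zero] at h9
    exact lim_of_zero E hbc hΛ' h9
  tfae_finish

end Growth

end Pool.Agent.W524.SH
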