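import Pool.Agent.W524.SH.Fin

/-! The Riemann hypothesis and the dyadic mean squares. -/

set_option autoImplicit false

namespace Pool.Agent.W524.SH

open MeasureTheory Filter Topology Set Classical
open Pool.Agent.W263.EP Pool.Agent.W263.MN Pool.Agent.W263.LG Pool.Agent.W263.MS
open Pool.Agent.H341R2 (NormSys)
open Pool.Agent.W524.LV (QQ lead f0 f0_meas WUp WLo KK log_QQ)
open Pool.Agent.W263.BSD (isOpen_half LInt stp one_LInt)
open Pool.Agent.W136.FR (log_LInt)
open Pool.Agent.W524.DY (integral_log_change')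
open scoped ENNReal

variable {S : NormSys} {Bs : Finset S.X} {bad : Set S.X} {B : S.X → Polynomial ℂ}
  {tr : S.X → ℕ → ℝ} {ω : ℝ} {D : ℝ} {F : ℂ → ℂ} {r : ℕ} {L : ℝ}

theorem f0_bdd (E : TData S (tn S bad tr ω) D) (C0 V : ℝ) :
    ∃ M : ℝ, ∀ u, 1 ≤ u → u ≤ V → |f0 S (tn S bad tr ω) r C0 u| ≤ M := by
  obtain ⟨B1, h1⟩ := Pool.Agent.W524.LQ.stp_bd (fib S.N (cc S (tn S bad tr ω))) V
  obtain ⟨B2, h2⟩ := E.sc_bounded
  refine ⟨B1 + B2 + r * V + |C0|, fun u hu hV => ?_⟩
  have a1 : |aa S (tn S bad tr ω) u| ≤ B1 := h1 u hV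
  have a2 := h2 u (by linarith)
  have a3 : 0 ≤ Real.log u := Real.log_nonneg hu
  have a4 : Real.log u ≤ V := (Real.log_le_sub_one_of_pos (by linarith)).trans (by linarith)
  have a5 : (r : ℝ) * Real.log u ≤ r * V := mul_le_mul_of_nonneg_left a4 (Nat.cast_nonneg _)
  have a6 : 0 ≤ (r : ℝ) * Real.log u := mul_nonneg (Nat.cast_nonneg _) a3
  unfold f0
  rw [abs_le] at a1 a2 ⊢
  have b1 := le_abs_self C0
  have b2 := neg_abs_le C0
  constructor <;> linarith [a1.1, a1.2, a2.1, a2.2]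

theorem f0_sq_int (E : TData S (tn S bad tr ω) D) (C0 : ℝ) {U V : ℝ} (hU : 1 ≤ U) :
    IntegrableOn (fun u => f0 S (tn S bad tr ω) r C0 u ^ 2) (Ioc U V) := by
  obtain ⟨M, hM⟩ := f0_bdd (r := r) E C0 V
  refine Measure.integrableOn_of_bounded (M := M ^ 2) measure_Ioc_lt_top.ne
    ((f0_meas r C0).pow_const 2).aestronglyMeasurable ?_
  refine (ae_restrict_iff' measurableSet_Ioc).mpr (Eventually.of_forall fun u hu => ?_)
  rw [Real.norm_eq_abs, abs_pow]
  exact pow_le_pow_left₀ (abs_nonneg _) (hM u (hU.trans hu.1.le) hu.2) 2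

/-- convergence from the dyadic mean squares -/
theorem conv_of_rate (E : TData S (tn S bad tr ω) D) {C0 C U0 : ℝ} (hU0 : 1 ≤ U0)
    (h : ∀ U : ℝ, U0 ≤ U → ∫ u in Ioc U (2 * U), f0 S (tn S bad tr ω) r C0 u ^ 2 ≤ C / U) :
    ∀ w > 0, LInt (aa S (tn S bad tr ω)) w := by
  have hU : 0 < U0 := by linarith
  have hC : 0 ≤ C := by
    have h1 := h U0 le_rfl
    have h2 : 0 ≤ ∫ u in Ioc U0 (2 * U0), f0 S (tn S bad tr ω) r C0 u ^ 2 :=
      integral_nonneg fun u => sq_nonneg _
    have h3 := h2.trans h1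
    rw [le_div_iff₀ hU, zero_mul] at h3
    exact h3
  have hind : ∀ n : ℕ, ∫ u in Ioc U0 (2 ^ n * U0), f0 S (tn S bad tr ω) r C0 u ^ 2 ≤
      2 * C / U0 * (1 - 1 / 2 ^ n) := by
    intro n
    induction n with
    | zero => simp
    | succ n ih =>
      have e1 : (1 : ℝ) ≤ 2 ^ n := one_le_pow₀ (by norm_num)
      have e2 : U0 ≤ 2 ^ n * U0 := by nlinarith
      have e3 : (2 : ℝ) ^ n * U0 ≤ 2 ^ (n + 1) * U0 := by
        rw [pow_succ]; nlinarith
      have e4 := h (2 ^ n * U0) e2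
      have e5 : (2 : ℝ) * (2 ^ n * U0) = 2 ^ (n + 1) * U0 := by rw [pow_succ]; ring
      rw [e5] at e4
      rw [← Ioc_union_Ioc_eq_Ioc e2 e3, setIntegral_union (by
        rw [Set.disjoint_left]; intro u h1 h2; exact absurd h1.2 (not_le.mpr h2.1))
        measurableSet_Ioc (f0_sq_int E C0 hU0) (f0_sq_int E C0 (hU0.trans e2))]
      refine (add_le_add ih e4).trans (le_of_eq ?_)
      rw [pow_succ]
      field_simp
      ring
  have hsq : IntegrableOn (fun u => f0 S (tn S bad tr ω) r C0 u ^ 2) (Ioi U0) := by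
    refine integrableOn_Ioi_of_intervalIntegral_norm_bounded (l := atTop) (2 * C / U0) U0
      (b := fun n : ℕ => 2 ^ n * U0) (fun n => f0_sq_int E C0 hU0) ?_ (Eventually.of_forall fun n => ?_)
    · exact (tendsto_pow_atTop_atTop_of_one_lt (by norm_num : (1 : ℝ) < 2)).atTop_mul_const hU
    · have e1 : (1 : ℝ) ≤ 2 ^ n := one_le_pow₀ (by norm_num)
      have e2 : U0 ≤ 2 ^ n * U0 := by nlinarith
      rw [intervalIntegral.integral_of_le e2]
      have e3 : ∀ u, ‖f0 S (tn S bad tr ω) r C0 u ^ 2‖ = f0 S (tn S bad tr ω) r C0 u ^ 2 :=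
        fun u => Real.norm_of_nonneg (sq_nonneg _)
      simp only [e3]
      refine (hind n).trans ?_
      have e4 : 0 ≤ 2 * C / U0 := by positivity
      have e5 : (0 : ℝ) ≤ 1 / 2 ^ n := by positivity
      nlinarith
  intro w hw
  unfold LInt
  rw [← Ioc_union_Ioi_eq_Ioi hU.le]
  refine IntegrableOn.union ?_ ?_
  · obtain ⟨B1, h1⟩ := Pool.Agent.W524.LQ.stp_bd (fib S.N (cc S (tn S bad tr ω))) U0
    refine Measure.integrableOn_of_bounded (M := |B1|) measure_Ioc_lt_top.ne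
      ((TData.aa_meas.mul (by fun_prop)).aestronglyMeasurable) ?_
    refine (ae_restrict_iff' measurableSet_Ioc).mpr (Eventually.of_forall fun u hu => ?_)
    have a1 : |aa S (tn S bad tr ω) u| ≤ B1 := h1 u hu.2
    rw [norm_mul, Real.norm_eq_abs, Real.norm_eq_abs, abs_of_pos (Real.exp_pos _)]
    have a2 : Real.exp (-(w * u)) ≤ 1 := by
      rw [Real.exp_le_one_iff]
      have := mul_pos hw hu.1
      linarith
    have a3 := Real.exp_pos (-(w * u))
    calc |aa S (tn S bad tr ω) u| * Real.exp (-(w * u)) ≤ |B1| * 1 :=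
          mul_le_mul (a1.trans (le_abs_self _)) a2 a3.le (abs_nonneg _)
      _ = _ := mul_one _
  · have hrest : IntegrableOn (fun u => ((Pool.Agent.W263.EP.sc S (tn S bad tr ω) u +
        r * Real.log u) + C0 * 1) * Real.exp (-(w * u))) (Ioi U0) := by
      have h1 : LInt (fun u => (Pool.Agent.W263.EP.sc S (tn S bad tr ω) u +
        r * Real.log u) + C0 * 1) w :=
        ((E.sc_LInt hw).add ((log_LInt hw).const_mul _)).add ((one_LInt hw).const_mul _)
      exact h1.mono_set (Ioi_subset_Ioi hU.le)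
    have hmain : IntegrableOn (fun u => f0 S (tn S bad tr ω) r C0 u * Real.exp (-(w * u)))
        (Ioi U0) := by
      have h2 : IntegrableOn (fun u => (1 : ℝ) * Real.exp (-((2 * w) * u))) (Ioi U0) :=
        (one_LInt (show 0 < 2 * w by linarith)).mono_set (Ioi_subset_Ioi hU.le)
      refine (hsq.add h2).mono' (((f0_meas r C0).mul (by fun_prop)).aestronglyMeasurable)
        (Eventually.of_forall fun u => ?_)
      simp only [Pi.add_apply]
      rw [norm_mul, Real.norm_eq_abs, Real.norm_eq_abs, abs_of_pos (Real.exp_pos _)]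
      have e1 : Real.exp (-((2 * w) * u)) = Real.exp (-(w * u)) ^ 2 := by
        rw [← Real.exp_nat_mul]
        congr 1
        push_cast
        ring
      rw [e1, ← sq_abs (f0 S (tn S bad tr ω) r C0 u)]
      nlinarith [sq_nonneg (|f0 S (tn S bad tr ω) r C0 u| - Real.exp (-(w * u))),
        abs_nonneg (f0 S (tn S bad tr ω) r C0 u), Real.exp_pos (-(w * u)),
        mul_nonneg (abs_nonneg (f0 S (tn S bad tr ω) r C0 u)) (Real.exp_pos (-(w * u))).le]
    refine (hmain.add hrest).congr (Eventually.of_forall fun u => ?_)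
    simp only [Pi.add_apply]
    unfold f0
    ring

/-- the mean square in the multiplicative variable -/
theorem sq_change (E : TData S (tn S (Bs : Set S.X) tr ω) D) (hbc : 0 < bc S Bs B ω)
    (hΛ : 0 < lead F ((ω + 1) / 2) r) {x : ℝ} (hx : 1 < x) :
    ∫ y in Ioc x (x ^ 2),
      Real.log (QQ S Bs B tr ω y / (KK F ((ω + 1) / 2) r * Real.log y ^ r)) ^ 2 / y =
    ∫ u in Ioc (Real.log x) (2 * Real.log x),
      f0 S (tn S (Bs : Set S.X) tr ω) r (C00 S Bs B ω F r) u ^ 2 := by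
  have hx0 : 0 < x := by linarith
  rw [integral_log_change' (fun y =>
    Real.log (QQ S Bs B tr ω y / (KK F ((ω + 1) / 2) r * Real.log y ^ r)) ^ 2) hx0 (by positivity),
    Real.log_pow]
  push_cast
  refine setIntegral_congr_fun measurableSet_Ioc fun u hu => ?_
  have hu0 : 0 < u := (Real.log_pos hx).trans hu.1
  rw [Real.log_exp, log_QQ E hbc hΛ hu0]
  rfl

section Growth

variable (E : TData S (tn S (Bs : Set S.X) tr ω) D)
  (hB : ∀ x ∈ Bs, ∀ s : ℂ, (ω + 1) / 2 ≤ s.re → (B x).eval (((S.N x : ℕ) : ℂ) ^ (-s)) ≠ 0)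
  (hd : ∀ s : ℂ, (ω + 1) / 2 - 1 < s.re → DifferentiableAt ℂ F s)
  (he : ∀ s : ℂ, (ω + 2) / 2 < s.re → F s = LFB S Bs B tr s)

include E hB hd he in
/-- **The Riemann hypothesis is the optimal rate in the logarithmic mean square.** -/
theorem rate_iff (hr : analyticOrderAt F (((ω + 1) / 2 : ℝ) : ℂ) = r)
    (hg : ∃ (C : ℝ) (A : ℕ), ∀ s : ℂ, (ω + 1) / 2 - 1 < s.re → ‖F s‖ ≤ C * (1 + ‖s‖) ^ A) :
    (∀ s : ℂ, (ω + 1) / 2 < s.re → F s ≠ 0) ↔ ∃ C : ℝ, ∀ᶠ x : ℝ in atTop,
      ∫ y in Ioc x (x ^ 2),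
        Real.log (QQ S Bs B tr ω y / (KK F ((ω + 1) / 2) r * Real.log y ^ r)) ^ 2 / y ≤
          C / Real.log x := by
  have hAn := an_centre (ω := ω) hd
  have hΛ : 0 < lead F ((ω + 1) / 2) r := (lead_limit_at hAn hr).1
  have hbc := bc_pos (S := S) (Bs := Bs) (B := B) (ω := ω) hB
  constructor
  · intro hRH
    obtain ⟨C, hC0, hC⟩ := dyadic_RH E hB hd he hr hg hRH
    refine ⟨C, ?_⟩
    filter_upwards [eventually_gt_atTop 1, Real.tendsto_log_atTop.eventually
      (eventually_ge_atTop 1)] with x h1 h2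
    rw [sq_change E hbc hΛ h1, integral_eq_lintegral_of_nonneg_ae
      (Eventually.of_forall fun u => sq_nonneg _)
      ((f0_meas _ _).pow_const 2).aestronglyMeasurable]
    exact ENNReal.toReal_le_of_le_ofReal (by positivity) (hC _ h2)
  · rintro ⟨C, hC⟩
    refine rh_of_conv E hB hd he ?_
    obtain ⟨X, hX⟩ := eventually_atTop.mp hC
    have e0 : 0 < max X 1 := lt_of_lt_of_le one_pos (le_max_right _ _)
    refine conv_of_rate (C := C) (U0 := max 1 (Real.log (max X 1))) (r := r)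
      (C0 := C00 S Bs B ω F r) E (le_max_left _ _) fun U hU => ?_
    have g1 : 1 ≤ U := (le_max_left _ _).trans hU
    have g2 : X ≤ Real.exp U := by
      have := (le_max_right _ _).trans hU
      rw [Real.log_le_iff_le_exp e0] at this
      exact (le_max_left _ _).trans this
    have h3 := hX (Real.exp U) g2
    rw [sq_change E hbc hΛ (Real.one_lt_exp_iff.mpr (by linarith)), Real.log_exp] at h3
    exact h3

end Growth

end Pool.Agent.W524.SH
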