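import Pool.Agent.W524.LV.Win

/-! A Tauberian theorem with short one-sided windows. -/

set_option autoImplicit false

namespace Pool.Agent.W524.SH

open MeasureTheory Filter Topology Set Classical
open Pool.Agent.W524.LV
open Pool.Agent.W136.FR (chain')
open scoped ENNReal

/-- increments bounded from above over distances `κ / u` give quadratic growth -/
theorem quad_of_incr {f : ℝ → ℝ} {κ K u0 : ℝ} (hκ : 0 < κ) (hK : 0 ≤ K)
    (h : ∀ u v, u0 ≤ u → u ≤ v → v ≤ u + κ / u → f v ≤ f u + K) {ε : ℝ} (hε : 0 < ε) :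
    ∀ᶠ u : ℝ in atTop, f u ≤ Real.exp (ε * u) := by
  set u1 := max u0 1 with hu1
  have hu11 : 1 ≤ u1 := le_max_right _ _
  set M : ℝ := |f u1| + K + K / κ with hM
  have hM0 : 0 ≤ M := by positivity
  have hlo := (isLittleO_pow_exp_pos_mul_atTop (b := ε) 2 hε).bound
    (show (0 : ℝ) < 1 / (M + 1) by positivity)
  filter_upwards [hlo, eventually_ge_atTop u1] with V h1 h2
  have hV1 : 1 ≤ V := hu11.trans h2
  have hV0 : 0 < V := by linarith
  have h3 := chain' (f := fun u => f (min u V)) (b := κ / V) (ε := K) (u0 := u1) (by positivity) hK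
    (fun u v e1 e2 e3 => ?_) (u := u1) (v := V) le_rfl h2
  · simp only [min_self, min_eq_left h2] at h3
    rw [Real.norm_eq_abs, Real.norm_eq_abs, abs_of_nonneg (by positivity),
      abs_of_pos (Real.exp_pos _)] at h1
    have h4 : (V - u1) / (κ / V) ≤ V ^ 2 / κ := by
      rw [div_div_eq_mul_div]
      refine div_le_div_of_nonneg_right ?_ hκ.le
      nlinarith
    have h5 : (1 + (V - u1) / (κ / V)) * K ≤ (1 + V ^ 2 / κ) * K :=
      mul_le_mul_of_nonneg_right (by linarith) hK
    have h6 : (1 + V ^ 2 / κ) * K = K + K / κ * V ^ 2 := by ring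
    have h7 : (1 : ℝ) ≤ V ^ 2 := one_le_pow₀ hV1
    have h8 : f V ≤ M * V ^ 2 := by
      have h9 := le_abs_self (f u1)
      have h10 : |f u1| ≤ |f u1| * V ^ 2 := le_mul_of_one_le_right (abs_nonneg _) h7
      have h11 : K ≤ K * V ^ 2 := le_mul_of_one_le_right hK h7
      rw [hM]
      linarith
    have h12 : M * V ^ 2 ≤ M * (1 / (M + 1) * Real.exp (ε * V)) :=
      mul_le_mul_of_nonneg_left h1 hM0
    have h13 : M * (1 / (M + 1) * Real.exp (ε * V)) ≤ Real.exp (ε * V) := by
      rw [← mul_assoc, mul_one_div]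
      refine mul_le_of_le_one_left (Real.exp_pos _).le ?_
      rw [div_le_one (by positivity)]
      linarith
    linarith
  · rcases le_or_gt V u with hc | hc
    · rw [min_eq_right hc, min_eq_right (hc.trans e2)]
      linarith
    · rw [min_eq_left hc.le]
      refine h u (min v V) ((le_max_left u0 1).trans e1) (le_min e2 hc.le) ?_
      refine (min_le_left _ _).trans (e3.trans ?_)
      have : κ / V ≤ κ / u := div_le_div_of_nonneg_left hκ.le (by linarith) hc.le
      linarith

/-- a lower bound for the integral over a window -/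
theorem window_lower {γ : ℝ → ℝ} {a b η : ℝ} (hη : 0 < η)
    (h : ∀ v ∈ Ioc a b, η ≤ |γ v|) :
    ENNReal.ofReal (η ^ 2 * (b - a)) ≤ ∫⁻ v in Ioc a b, ENNReal.ofReal (γ v ^ 2) := by
  have h1 : ∫⁻ _ in Ioc a b, ENNReal.ofReal (η ^ 2) = ENNReal.ofReal (η ^ 2 * (b - a)) := by
    rw [setLIntegral_const, Real.volume_Ioc, ENNReal.ofReal_mul (sq_nonneg η)]
  rw [← h1]
  refine setLIntegral_mono' measurableSet_Ioc fun v hv => ENNReal.ofReal_le_ofReal ?_
  rw [← sq_abs (γ v)]
  exact pow_le_pow_left₀ hη.le (h v hv) 2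

/-- **Tauberian theorem.**  A function with dyadic mean squares `≪ 1 / U` whose increments over the
windows `[u, u + K / u]` are small from above tends to zero. -/
theorem taub {γ : ℝ → ℝ} {C : ℝ}
    (hC : ∀ᶠ U : ℝ in atTop, ∫⁻ u in Ioc U (2 * U), ENNReal.ofReal (γ u ^ 2) ≤
      ENNReal.ofReal (C / U))
    (h : ∀ ε K : ℝ, 0 < ε → 0 < K → ∃ u0 : ℝ, ∀ u v, u0 ≤ u → u ≤ v → v ≤ u + K / u →
      γ v ≤ γ u + ε) : Tendsto γ atTop (𝓝 0) := by
  rw [Metric.tendsto_nhds]
  intro η hη
  set K : ℝ := 16 * (|C| + 1) / η ^ 2 with hK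
  have hK0 : 0 < K := by positivity
  have hKη : K * η ^ 2 = 16 * (|C| + 1) := by rw [hK]; field_simp
  obtain ⟨u0, hu0⟩ := h (η / 2) K (by positivity) hK0
  obtain ⟨U1, hU1⟩ := eventually_atTop.mp hC
  filter_upwards [eventually_ge_atTop (max (2 * max u0 1) (max (2 * max U1 1) (K + 1)))] with u hu
  have b1 : 2 * max u0 1 ≤ u := (le_max_left _ _).trans hu
  have b2 : 2 * max U1 1 ≤ u := (le_max_left _ _).trans ((le_max_right _ _).trans hu)
  have b3 : K + 1 ≤ u := (le_max_right _ _).trans ((le_max_right _ _).trans hu)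
  have c1 := le_max_left u0 1
  have c2 := le_max_right u0 1
  have c3 := le_max_left U1 1
  have c4 := le_max_right U1 1
  have hu2 : 2 ≤ u := by linarith
  have hupos : 0 < u := by linarith
  have hC' : C ≤ |C| := le_abs_self C
  have hKu : K / (2 * u) ≤ u / 2 := by
    rw [div_le_div_iff₀ (by positivity) (by norm_num)]
    nlinarith
  have hKu0 : 0 < K / (2 * u) := by positivity
  have hfin : ∀ a b : ℝ, b - a = K / (2 * u) → ∀ U : ℝ, U1 ≤ U → u / 2 ≤ U → 0 < U → 
      Ioc a b ⊆ Ioc U (2 * U) → (∀ v ∈ Ioc a b, η / 2 ≤ |γ v|) → False := by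
    intro a b hab U hU hU' hUp hsub hγ
    have h1 := window_lower (by positivity) hγ
    have h2 : ∫⁻ v in Ioc a b, ENNReal.ofReal (γ v ^ 2) ≤
        ∫⁻ v in Ioc U (2 * U), ENNReal.ofReal (γ v ^ 2) := lintegral_mono_set hsub
    have h3 := (h1.trans h2).trans (hU1 U hU)
    have h4 : C / U ≤ 2 * |C| / u := by
      rw [div_le_div_iff₀ hUp hupos]
      have : 0 ≤ |C| := abs_nonneg C
      nlinarith
    have h5 := h3.trans (ENNReal.ofReal_le_ofReal h4)
    rw [ENNReal.ofReal_le_ofReal_iff (by positivity), hab] at h5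
    have h6 : (η / 2) ^ 2 * (K / (2 * u)) = 2 * (|C| + 1) / u := by
      rw [show (η / 2) ^ 2 * (K / (2 * u)) = (K * η ^ 2) / (8 * u) by field_simp; ring, hKη]
      field_simp
      ring
    rw [h6, div_le_div_iff_of_pos_right hupos] at h5
    linarith
  rw [Real.dist_eq, sub_zero]
  by_contra hcon
  have hcon' : η ≤ |γ u| := not_lt.mp hcon
  rcases le_or_gt 0 (γ u) with hs | hs
  · rw [abs_of_nonneg hs] at hcon'
    refine hfin (u - K / (2 * u)) u (by ring) (u / 2) (by linarith) le_rfl (by linarith) ?_ ?_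
    · intro v hv
      exact ⟨by linarith [hv.1], by linarith [hv.2]⟩
    · intro v hv
      have hv0 : 0 < v := by linarith [hv.1]
      have e1 : K / u ≤ K / v := div_le_div_of_nonneg_left hK0.le hv0 hv.2
      have e2 : K / (2 * u) ≤ K / u := div_le_div_of_nonneg_left hK0.le hupos (by linarith)
      have h1 := hu0 v u (by linarith [hv.1]) hv.2 (by linarith [hv.1])
      refine le_trans ?_ (le_abs_self _)
      linarith
  · rw [abs_of_neg hs] at hcon'
    refine hfin u (u + K / (2 * u)) (by ring) u (by linarith) (by linarith) hupos ?_ ?_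
    · intro v hv
      exact ⟨hv.1, by linarith [hv.2]⟩
    · intro v hv
      have e2 : K / (2 * u) ≤ K / u := div_le_div_of_nonneg_left hK0.le hupos (by linarith)
      have h1 := hu0 u v (by linarith) hv.1.le (by linarith [hv.2])
      refine le_trans ?_ (neg_le_abs _)
      linarith

end Pool.Agent.W524.SH
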