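import Pool.Agent.W524.SH.Rate
import Pool.Agent.W524.SH.Taub
import Pool.Agent.W524.LQ.Conv
import Pool.Agent.W524.LQ.Grow

/-! Short one-sided windows. -/

set_option autoImplicit false

namespace Pool.Agent.W524.SH

open MeasureTheory Filter Topology Set Classical
open Pool.Agent.W263.EP Pool.Agent.W263.MN Pool.Agent.W263.LG Pool.Agent.W263.MS
open Pool.Agent.H341R2 (NormSys)
open Pool.Agent.W524.LV (QQ lead f0 WUp WLo)
open Pool.Agent.W263.BSD (isOpen_half LInt)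
open scoped ENNReal

variable {S : NormSys} {Bs : Finset S.X} {bad : Set S.X} {B : S.X → Polynomial ℂ}
  {tr : S.X → ℕ → ℝ} {ω : ℝ} {D : ℝ} {F : ℂ → ℂ} {r : ℕ} {L : ℝ}

/-- dyadic form of the weighted mean square bound -/
theorem dyadic_of_rate {D0 : ℝ → ℝ} {C : ℝ} (hC0 : 0 ≤ C)
    (h : ∀ σ : ℝ, 0 < σ → σ ≤ 1 → ∫⁻ u in Ioi (0 : ℝ),
      ENNReal.ofReal ((u * D0 u * Real.exp (-(σ * u))) ^ 2) ≤ ENNReal.ofReal (C / σ))
    {U : ℝ} (hU : 1 ≤ U) :
    ∫⁻ u in Ioc U (2 * U), ENNReal.ofReal (D0 u ^ 2) ≤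
      ENNReal.ofReal (Real.exp 4 * C / U) := by
  have hU0 : 0 < U := by linarith
  have h1 := h (1 / U) (by positivity) (by rw [div_le_one hU0]; exact hU)
  have e1 : C / (1 / U) = C * U := by field_simp
  rw [e1] at h1
  have hpt : ∀ u ∈ Ioc U (2 * U), ENNReal.ofReal (D0 u ^ 2) ≤
      ENNReal.ofReal (Real.exp 4 / U ^ 2) *
        ENNReal.ofReal ((u * D0 u * Real.exp (-(1 / U * u))) ^ 2) := by
    intro u hu
    have hu0 : 0 < u := hU0.trans hu.1
    rw [← ENNReal.ofReal_mul (by positivity)]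
    refine ENNReal.ofReal_le_ofReal ?_
    have e2 : (u * D0 u * Real.exp (-(1 / U * u))) ^ 2 =
        u ^ 2 * D0 u ^ 2 * Real.exp (-(2 * (1 / U * u))) := by
      rw [mul_pow, mul_pow, ← Real.exp_nat_mul]
      congr 2
      push_cast
      ring
    have e3 : Real.exp (-4) ≤ Real.exp (-(2 * (1 / U * u))) := by
      refine Real.exp_le_exp.mpr ?_
      have : 1 / U * u ≤ 2 := by
        rw [one_div, ← div_eq_inv_mul, div_le_iff₀ hU0]
        exact hu.2
      linarith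
    have e4 : U ^ 2 ≤ u ^ 2 := pow_le_pow_left₀ hU0.le hu.1.le 2
    have e5 : Real.exp 4 * Real.exp (-4) = 1 := by rw [← Real.exp_add]; simp
    rw [e2]
    calc D0 u ^ 2 = Real.exp 4 / U ^ 2 * (U ^ 2 * D0 u ^ 2 * Real.exp (-4)) := by
          have : Real.exp 4 / U ^ 2 * (U ^ 2 * D0 u ^ 2 * Real.exp (-4)) =
              (Real.exp 4 * Real.exp (-4)) * D0 u ^ 2 := by field_simp
          rw [this, e5, one_mul]
      _ ≤ Real.exp 4 / U ^ 2 * (u ^ 2 * D0 u ^ 2 * Real.exp (-(2 * (1 / U * u)))) := by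
          gcongr
  refine (setLIntegral_mono' measurableSet_Ioc hpt).trans ?_
  rw [lintegral_const_mul' _ _ ENNReal.ofReal_ne_top]
  have h2 : ∫⁻ u in Ioc U (2 * U),
      ENNReal.ofReal ((u * D0 u * Real.exp (-(1 / U * u))) ^ 2) ≤ ENNReal.ofReal (C * U) :=
    (lintegral_mono_set (fun u hu => hU0.trans hu.1)).trans h1
  refine (mul_le_mul' le_rfl h2).trans (le_of_eq ?_)
  rw [← ENNReal.ofReal_mul (by positivity)]
  congr 1
  field_simp

/-- two functions which differ by `O(1 / u)` -/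
theorem dyadic_add {D0 γ : ℝ → ℝ} {C K : ℝ} (hC0 : 0 ≤ C) (hDm : Measurable D0)
    (hC : ∀ U : ℝ, 1 ≤ U → ∫⁻ u in Ioc U (2 * U), ENNReal.ofReal (D0 u ^ 2) ≤
      ENNReal.ofReal (C / U)) (hK : ∀ u : ℝ, 0 < u → |D0 u + γ u| ≤ K / u) {U : ℝ} (hU : 1 ≤ U) :
    ∫⁻ u in Ioc U (2 * U), ENNReal.ofReal (γ u ^ 2) ≤ ENNReal.ofReal ((2 * C + 2 * K ^ 2) / U) := by
  have hU0 : 0 < U := by linarith
  have h2 : (2 : ℝ≥0∞) = ENNReal.ofReal 2 := by norm_num
  have hpt : ∀ u ∈ Ioc U (2 * U), ENNReal.ofReal (γ u ^ 2) ≤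
      2 * ENNReal.ofReal (D0 u ^ 2) + ENNReal.ofReal (2 * K ^ 2 / U ^ 2) := by
    intro u hu
    have hu0 : 0 < u := hU0.trans hu.1
    rw [h2, ← ENNReal.ofReal_mul (by norm_num), ← ENNReal.ofReal_add (by positivity) (by positivity)]
    refine ENNReal.ofReal_le_ofReal ?_
    have h3 := hK u hu0
    have hK0 : 0 ≤ K := by
      have := (abs_nonneg _).trans h3
      rw [le_div_iff₀ hu0, zero_mul] at this
      exact this
    have h4 : |D0 u + γ u| ≤ K / U := h3.trans (div_le_div_of_nonneg_left hK0 hU0 hu.1.le)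
    have h5 : (D0 u + γ u) ^ 2 ≤ (K / U) ^ 2 := by
      rw [← sq_abs]
      exact pow_le_pow_left₀ (abs_nonneg _) h4 2
    rw [div_pow] at h5
    have h6 : γ u ^ 2 ≤ 2 * D0 u ^ 2 + 2 * (D0 u + γ u) ^ 2 := by
      nlinarith [sq_nonneg (2 * D0 u + γ u)]
    have h7 : 2 * K ^ 2 / U ^ 2 = 2 * (K ^ 2 / U ^ 2) := by ring
    rw [h7]
    linarith
  refine (setLIntegral_mono' measurableSet_Ioc hpt).trans ?_
  have hm : Measurable fun u => 2 * ENNReal.ofReal (D0 u ^ 2) :=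
    ((hDm.pow_const 2).ennreal_ofReal).const_mul _
  rw [lintegral_add_left hm, lintegral_const_mul' _ _ (by norm_num), setLIntegral_const,
    Real.volume_Ioc, ← ENNReal.ofReal_mul (by positivity)]
  refine (add_le_add (mul_le_mul' le_rfl (hC U hU)) le_rfl).trans (le_of_eq ?_)
  rw [h2, ← ENNReal.ofReal_mul (by norm_num), ← ENNReal.ofReal_add (by positivity)
    (mul_nonneg (by positivity) (by linarith))]
  congr 1
  field_simp
  ring

/-- the two remainders -/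
theorem rem_f0 (E : TData S (tn S bad tr ω) D) (L : ℝ) :
    ∃ K : ℝ, ∀ u : ℝ, 0 < u → |rem (ap S (tn S bad tr ω)) r L 0 u +
      f0 S (tn S bad tr ω) r (-L + r * Real.eulerMascheroniConstant) u| ≤ K / u := by
  obtain ⟨K, hK⟩ := Pool.Agent.W524.LQ.cmp_PS E
  refine ⟨K, fun u hu => ?_⟩
  refine le_trans (le_of_eq ?_) (hK u hu)
  have h1 := rem_zero_eq (S := S) (bad := bad) (tr := tr) (ω := ω) (ρ := r) (L := L)
    (Real.one_lt_exp_iff.mpr hu)
  rw [Real.log_exp] at h1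
  rw [h1, log_PS E hu.le]
  unfold f0 Pool.Agent.W263.LG.mt
  rw [Real.log_exp, harmonic_zero]
  congr 1
  push_cast
  ring

/-- the dyadic mean squares of the deviation, under the Riemann hypothesis -/
theorem dyadic_f0 (E : TData S (tn S (Bs : Set S.X) tr ω) D) {F1 : ℂ → ℂ}
    (hF : IsFull S (Bs : Set S.X) tr ω F1)
    (hd : ∀ s : ℂ, (ω + 1) / 2 - 1 < s.re → DifferentiableAt ℂ F1 s)
    (hn : meromorphicOrderAt F1 (((ω + 1) / 2 : ℝ) : ℂ) = ((r : ℤ) : WithTop ℤ))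
    (hL : CLim ((ω + 1) / 2) F1 ((r : ℤ) : ℝ) L)
    (hg : ∃ (C : ℝ) (A : ℕ), ∀ s : ℂ, (ω + 1) / 2 - 1 < s.re → ‖F1 s‖ ≤ C * (1 + ‖s‖) ^ A) :
    ∃ C : ℝ, 0 ≤ C ∧ ∀ U : ℝ, 1 ≤ U → ∫⁻ u in Ioc U (2 * U),
      ENNReal.ofReal (f0 S (tn S (Bs : Set S.X) tr ω) r
        (-L + r * Real.eulerMascheroniConstant) u ^ 2) ≤ ENNReal.ofReal (C / U) := by
  obtain ⟨C, hC0, hC⟩ := rate_of_RH E hF hd hn hL hg
  rw [Int.cast_natCast] at hC
  obtain ⟨K, hK⟩ := rem_f0 (r := r) E L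
  have P := pair E
  exact ⟨2 * (Real.exp 4 * C) + 2 * K ^ 2, by positivity, fun U hU =>
    dyadic_add (by positivity) (rem_meas P.am 0) (fun U hU => dyadic_of_rate hC0 hC hU) hK hU⟩

/-- short upper windows -/
def SUp (Q : ℝ → ℝ) : Prop :=
  ∀ ε K : ℝ, 0 < ε → 0 < K → ∀ᶠ x : ℝ in atTop, ∀ y, x ≤ y → y ≤ x * (1 + K / Real.log x) →
    Q y ≤ (1 + ε) * Q x

/-- short lower windows -/
def SLo (Q : ℝ → ℝ) : Prop :=
  ∀ ε K : ℝ, 0 < ε → 0 < K → ∀ᶠ x : ℝ in atTop, ∀ y, x ≤ y → y ≤ x * (1 + K / Real.log x) →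
    Q x ≤ (1 + ε) * Q y

theorem exp_short {K u v : ℝ} (hK : 0 < K) (hu : 1 ≤ u) (hKu : K ≤ u) (h : v ≤ u + K / u) :
    Real.exp v ≤ Real.exp u * (1 + 2 * K / Real.log (Real.exp u)) := by
  have hu0 : 0 < u := by linarith
  rw [Real.log_exp]
  have h1 : K / u ≤ 1 := by rw [div_le_one hu0]; exact hKu
  have h2 : 0 ≤ K / u := by positivity
  have h3 := (abs_le.mp (Real.abs_exp_sub_one_le (x := K / u) (by rw [abs_of_nonneg h2]; exact h1))).2
  rw [abs_of_nonneg h2] at h3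
  calc Real.exp v ≤ Real.exp (u + K / u) := Real.exp_le_exp.mpr h
    _ = Real.exp u * Real.exp (K / u) := Real.exp_add _ _
    _ ≤ _ := by
        refine mul_le_mul_of_nonneg_left ?_ (Real.exp_pos _).le
        rw [mul_div_assoc]
        linarith

theorem incr_of_SUp (h : SUp (PP S bad tr ω)) : ∀ ε K : ℝ, 0 < ε → 0 < K → ∃ u0 : ℝ,
    ∀ u v, u0 ≤ u → u ≤ v → v ≤ u + K / u →
      aa S (tn S bad tr ω) v ≤ aa S (tn S bad tr ω) u + ε := by
  intro ε K hε hK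
  have hε' : 0 < Real.exp ε - 1 := by
    have := Real.add_one_lt_exp hε.ne'
    linarith
  obtain ⟨X, hX⟩ := eventually_atTop.mp (h (Real.exp ε - 1) (2 * K) hε' (by positivity))
  refine ⟨max (Real.log (max X 1)) (max 1 K), fun u v e1 e2 e3 => ?_⟩
  have g1 := (le_max_left _ _).trans e1
  have g2 := (le_max_left _ _).trans ((le_max_right _ _).trans e1)
  have g3 := (le_max_right _ _).trans ((le_max_right _ _).trans e1)
  have h5 : X ≤ Real.exp u := by
    have e2 : 0 < max X 1 := lt_of_lt_of_le one_pos (le_max_right _ _)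
    rw [Real.log_le_iff_le_exp e2] at g1
    exact (le_max_left _ _).trans g1
  have h6 := hX (Real.exp u) h5 (Real.exp v) (Real.exp_le_exp.mpr e2) (exp_short hK g2 g3 e3)
  have h7 := Real.log_le_log (PP_pos _) h6
  rw [add_sub_cancel, Real.log_mul (Real.exp_pos _).ne' (PP_pos _).ne', Real.log_exp, log_PP,
    log_PP] at h7
  linarith

theorem incr_of_SLo (h : SLo (PP S bad tr ω)) : ∀ ε K : ℝ, 0 < ε → 0 < K → ∃ u0 : ℝ,
    ∀ u v, u0 ≤ u → u ≤ v → v ≤ u + K / u →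
      -aa S (tn S bad tr ω) v ≤ -aa S (tn S bad tr ω) u + ε := by
  intro ε K hε hK
  have hε' : 0 < Real.exp ε - 1 := by
    have := Real.add_one_lt_exp hε.ne'
    linarith
  obtain ⟨X, hX⟩ := eventually_atTop.mp (h (Real.exp ε - 1) (2 * K) hε' (by positivity))
  refine ⟨max (Real.log (max X 1)) (max 1 K), fun u v e1 e2 e3 => ?_⟩
  have g1 := (le_max_left _ _).trans e1
  have g2 := (le_max_left _ _).trans ((le_max_right _ _).trans e1)
  have g3 := (le_max_right _ _).trans ((le_max_right _ _).trans e1)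
  have h5 : X ≤ Real.exp u := by
    have e2 : 0 < max X 1 := lt_of_lt_of_le one_pos (le_max_right _ _)
    rw [Real.log_le_iff_le_exp e2] at g1
    exact (le_max_left _ _).trans g1
  have h6 := hX (Real.exp u) h5 (Real.exp v) (Real.exp_le_exp.mpr e2) (exp_short hK g2 g3 e3)
  have h7 := Real.log_le_log (PP_pos _) h6
  rw [add_sub_cancel, Real.log_mul (Real.exp_pos _).ne' (PP_pos _).ne', Real.log_exp, log_PP,
    log_PP] at h7
  linarith

end Pool.Agent.W524.SH
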