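import Pool.Agent.W524.SH.Bdd

/-! The automatic rate in the logarithmic mean square. -/

set_option autoImplicit false

namespace Pool.Agent.W524.SH

open MeasureTheory Filter Topology Set Classical
open Pool.Agent.W263.EP Pool.Agent.W263.MN Pool.Agent.W263.LG Pool.Agent.W263.MS
open Pool.Agent.H341R2 (NormSys)
open Pool.Agent.W524.LV (QQ lead f0 f0_meas WUp WLo KK log_QQ EOrd)
open Pool.Agent.W524.LQ (QD qd_QQ mean_of_L2 mean_real)
open Pool.Agent.W524.DY (integral_log_change')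
open Pool.Agent.W263.BSD (isOpen_half LInt)
open scoped ENNReal

variable {S : NormSys} {Bs : Finset S.X} {bad : Set S.X} {B : S.X → Polynomial ℂ}
  {tr : S.X → ℕ → ℝ} {ω : ℝ} {D : ℝ} {F : ℂ → ℂ} {r : ℕ} {L : ℝ}

/-- the dyadic mean squares with a rate -/
def InRate (Q : ℝ → ℝ) (ρ A : ℝ) : Prop :=
  ∃ C : ℝ, ∀ᶠ x : ℝ in atTop,
    ∫ y in Ioc x (x ^ 2), Real.log (Q y / (A * Real.log y ^ ρ)) ^ 2 / y ≤ C / Real.log x

/-- square integrability from dyadic bounds -/
theorem L2_of_dyadic {γ : ℝ → ℝ} (hγm : Measurable γ) {c : ℝ} (hc : 0 < c)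
    (hγb : ∀ U, ∃ B, ∀ u, c < u → u ≤ U → |γ u| ≤ B) {C U0 : ℝ} (hU0 : c ≤ U0)
    (h : ∀ U : ℝ, U0 ≤ U → ∫ u in Ioc U (2 * U), γ u ^ 2 ≤ C / U) :
    IntegrableOn (fun u => γ u ^ 2) (Ioi c) := by
  have hU : 0 < U0 := hc.trans_le hU0
  have hloc : ∀ V : ℝ, IntegrableOn (fun u => γ u ^ 2) (Ioc c V) := by
    intro V
    obtain ⟨M, hM⟩ := hγb V
    refine Measure.integrableOn_of_bounded (M := M ^ 2) measure_Ioc_lt_top.ne
      (hγm.pow_const 2).aestronglyMeasurable ?_
    refine (ae_restrict_iff' measurableSet_Ioc).mpr (Eventually.of_forall fun u hu => ?_)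
    rw [Real.norm_eq_abs, abs_pow]
    exact pow_le_pow_left₀ (abs_nonneg _) (hM u hu.1 hu.2) 2
  have hloc' : ∀ U V : ℝ, c ≤ U → IntegrableOn (fun u => γ u ^ 2) (Ioc U V) := fun U V hcU =>
    (hloc V).mono_set (Ioc_subset_Ioc_left hcU)
  have hC : 0 ≤ C := by
    have h1 := h U0 le_rfl
    have h2 : 0 ≤ ∫ u in Ioc U0 (2 * U0), γ u ^ 2 := integral_nonneg fun u => sq_nonneg _
    have h3 := h2.trans h1
    rw [le_div_iff₀ hU, zero_mul] at h3
    exact h3
  have hind : ∀ n : ℕ, ∫ u in Ioc U0 (2 ^ n * U0), γ u ^ 2 ≤ 2 * C / U0 * (1 - 1 / 2 ^ n) := by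
    intro n
    induction n with
    | zero => simp
    | succ n ih =>
      have e1 : (1 : ℝ) ≤ 2 ^ n := one_le_pow₀ (by norm_num)
      have e2 : U0 ≤ 2 ^ n * U0 := by nlinarith
      have e3 : (2 : ℝ) ^ n * U0 ≤ 2 ^ (n + 1) * U0 := by
        rw [pow_succ]; nlinarith
      have e4 := h (2 ^ n * U0) e2
      have e5 : (2 : ℝ) * (2 ^ n * U0) = 2 ^ (n + 1) * U0 := by rw [pow_succ]; ring
      rw [e5] at e4
      rw [← Ioc_union_Ioc_eq_Ioc e2 e3, setIntegral_union (by
        rw [Set.disjoint_left]; intro u h1 h2; exact absurd h1.2 (not_le.mpr h2.1))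
        measurableSet_Ioc (hloc' _ _ hU0) (hloc' _ _ (hU0.trans e2))]
      refine (add_le_add ih e4).trans (le_of_eq ?_)
      rw [pow_succ]
      field_simp
      ring
  have hsq : IntegrableOn (fun u => γ u ^ 2) (Ioi U0) := by
    refine integrableOn_Ioi_of_intervalIntegral_norm_bounded (l := atTop) (2 * C / U0) U0
      (b := fun n : ℕ => 2 ^ n * U0) (fun n => hloc' _ _ hU0) ?_ (Eventually.of_forall fun n => ?_)
    · exact (tendsto_pow_atTop_atTop_of_one_lt (by norm_num : (1 : ℝ) < 2)).atTop_mul_const hU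
    · have e1 : (1 : ℝ) ≤ 2 ^ n := one_le_pow₀ (by norm_num)
      have e2 : U0 ≤ 2 ^ n * U0 := by nlinarith
      rw [intervalIntegral.integral_of_le e2]
      have e3 : ∀ u, ‖γ u ^ 2‖ = γ u ^ 2 := fun u => Real.norm_of_nonneg (sq_nonneg _)
      simp only [e3]
      refine (hind n).trans ?_
      have e4 : 0 ≤ 2 * C / U0 := by positivity
      have e5 : (0 : ℝ) ≤ 1 / 2 ^ n := by positivity
      nlinarith
  rw [← Ioc_union_Ioi_eq_Ioi hU0]
  exact (hloc U0).union hsq

/-- the rate implies square integrability -/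
theorem L2_of_rate {Q : ℝ → ℝ} {κ : ℝ} (hQ : QD S bad tr ω Q κ) {ρ A : ℝ} (hA0 : 0 < A)
    (h : InRate Q ρ A) : InL2 Q ρ A := by
  obtain ⟨hpos, ⟨q, hqm, hqe, hqb⟩, _⟩ := hQ
  set γ : ℝ → ℝ := fun u => q u - Real.log A - ρ * Real.log u with hγ
  have hl2 : 0 < Real.log 2 := Real.log_pos (by norm_num)
  have hfγ : ∀ x : ℝ, 1 < x → Real.log (Q x / (A * (Real.log x) ^ ρ)) = γ (Real.log x) := by
    intro x hx
    have hlx : 0 < Real.log x := Real.log_pos hx
    have hQx := hpos x hx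
    rw [hγ]
    simp only []
    rw [hqe _ hlx, Real.exp_log (by linarith), Real.log_div hQx.ne' (by positivity),
      Real.log_mul hA0.ne' (by positivity), Real.log_rpow hlx]
    ring
  have hγm : Measurable γ := (hqm.sub_const _).sub (Real.measurable_log.const_mul ρ)
  have hγb : ∀ U, ∃ B, ∀ u, Real.log 2 < u → u ≤ U → |γ u| ≤ B := by
    intro U
    obtain ⟨B, hB⟩ := hqb U
    refine ⟨B + |Real.log A| + |ρ| * (|Real.log (Real.log 2)| + |Real.log U|), fun u h1 h2 => ?_⟩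
    have hu : 0 < u := hl2.trans h1
    have h4 : |Real.log u| ≤ |Real.log (Real.log 2)| + |Real.log U| := by
      have h5 := Real.log_le_log hl2 h1.le
      have h6 := Real.log_le_log hu h2
      rw [abs_le]
      constructor
      · have := neg_abs_le (Real.log (Real.log 2))
        have := abs_nonneg (Real.log U)
        linarith
      · have := le_abs_self (Real.log U)
        have := abs_nonneg (Real.log (Real.log 2))
        linarith
    calc |q u - Real.log A - ρ * Real.log u| ≤ |q u| + |Real.log A| + |ρ| * |Real.log u| := by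
          rw [← abs_mul]
          refine (abs_sub _ _).trans ?_
          gcongr
          exact abs_sub _ _
      _ ≤ _ := by
          have := hB u hu h2
          gcongr
  unfold InL2
  rw [sq_log_iff hfγ]
  obtain ⟨C, hC⟩ := h
  obtain ⟨X, hX⟩ := eventually_atTop.mp hC
  have e0 : 0 < max X 1 := lt_of_lt_of_le one_pos (le_max_right _ _)
  refine L2_of_dyadic (C := C) (U0 := max (Real.log 2) (Real.log (max X 1))) hγm hl2 hγb
    (le_max_left _ _) fun U hU => ?_
  have g1 : Real.log 2 ≤ U := (le_max_left _ _).trans hU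
  have hU0 : 0 < U := hl2.trans_le g1
  have g2 : X ≤ Real.exp U := by
    have := (le_max_right _ _).trans hU
    rw [Real.log_le_iff_le_exp e0] at this
    exact (le_max_left _ _).trans this
  have h3 := hX (Real.exp U) g2
  have hx1 : 1 < Real.exp U := Real.one_lt_exp_iff.mpr hU0
  rw [integral_log_change' (fun y => Real.log (Q y / (A * Real.log y ^ ρ)) ^ 2)
    (Real.exp_pos U) (by positivity), Real.log_pow, Real.log_exp] at h3
  push_cast at h3
  refine le_trans (le_of_eq (setIntegral_congr_fun measurableSet_Ioc fun u hu => ?_)) h3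
  have hu0 : 0 < u := hU0.trans hu.1
  have h4 := hfγ (Real.exp u) (Real.one_lt_exp_iff.mpr hu0)
  rw [Real.log_exp] at h4
  simp only [Real.log_exp]
  rw [← h4]

section Growth

variable (E : TData S (tn S (Bs : Set S.X) tr ω) D)
  (hB : ∀ x ∈ Bs, ∀ s : ℂ, (ω + 1) / 2 ≤ s.re → (B x).eval (((S.N x : ℕ) : ℂ) ^ (-s)) ≠ 0)
  (hd : ∀ s : ℂ, (ω + 1) / 2 - 1 < s.re → DifferentiableAt ℂ F s)
  (he : ∀ s : ℂ, (ω + 2) / 2 < s.re → F s = LFB S Bs B tr s)

include E hB hd he in
/-- **The automatic rate.** -/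
theorem rate_tfae (hr : analyticOrderAt F (((ω + 1) / 2 : ℝ) : ℂ) = r)
    (hg : ∃ (C : ℝ) (A : ℕ), ∀ s : ℂ, (ω + 1) / 2 - 1 < s.re → ‖F s‖ ≤ C * (1 + ‖s‖) ^ A)
    (q : ℝ) {A : ℝ} (hA : 0 < A) :
    List.TFAE [
      (∀ s : ℂ, (ω + 1) / 2 < s.re → F s ≠ 0) ∧ (r : ℝ) = q ∧
        A = Real.exp (q * Real.eulerMascheroniConstant) / lead F ((ω + 1) / 2) r,
      InMean (QQ S Bs B tr ω) q A,
      InL2 (QQ S Bs B tr ω) q A,
      InRate (QQ S Bs B tr ω) q A] := by
  have hAn := an_centre (ω := ω) hd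
  have hF := isContB hd he
  tfae_have 4 → 3 := L2_of_rate (qd_QQ E hB) hA
  tfae_have 3 → 2 := mean_of_L2 E hB hA
  tfae_have 2 → 1 := by
    intro h
    obtain ⟨h1, G1, hG, hFG⟩ := mean_real E hB hF hAn hr hA h
    refine ⟨fun s hs h0 => ?_, h1⟩
    have k2 : AnalyticOnNhd ℂ (fun s => F s * BB S Bs B s) {s : ℂ | (ω + 1) / 2 < s.re} :=
      DifferentiableOn.analyticOnNhd (fun s hs => ((hd s (by
        have hs' : (ω + 1) / 2 < s.re := hs
        linarith)).mul BB_diff.differentiableAt).differentiableWithinAt) (isOpen_half _)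
    have k3 : AnalyticOnNhd ℂ G1 {s : ℂ | (ω + 1) / 2 < s.re} := hG.1.analyticOnNhd (isOpen_half _)
    have hm : ((((ω + 1) / 2 + 1 : ℝ)) : ℂ) ∈ {s : ℂ | (ω + 1) / 2 < s.re} := by
      show (ω + 1) / 2 < (((ω + 1) / 2 + 1 : ℝ) : ℂ).re
      rw [Complex.ofReal_re]; linarith
    have k0 : (fun s => F s * BB S Bs B s) =ᶠ[𝓝 ((((ω + 1) / 2 + 1 : ℝ)) : ℂ)] G1 := by
      refine ((k2 _ hm).frequently_eq_iff_eventually_eq (k3 _ hm)).mp
        (Pool.Agent.W524.LQ.freq_real ?_)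
      refine Filter.Eventually.filter_mono nhdsWithin_le_nhds ?_
      filter_upwards [lt_mem_nhds (show (ω + 1) / 2 < (ω + 1) / 2 + 1 by linarith)] with s hs
        using hFG s hs
    have k4 := k2.eqOn_of_preconnected_of_eventuallyEq k3 (Pool.Agent.W263.BSD.preconn_half _) hm k0
    have k5 := k4 hs
    simp only [h0, zero_mul] at k5
    exact hG.2.1 s hs k5.symm
  tfae_have 1 → 4 := by
    rintro ⟨hRH, rfl, rfl⟩
    obtain ⟨C, hC⟩ := (rate_iff E hB hd he hr hg).mp hRH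
    refine ⟨C, ?_⟩
    filter_upwards [hC] with x hx
    simpa only [KK, Real.rpow_natCast] using hx
  tfae_finish

include E hB hd he in
/-- bounded short windows give the Riemann hypothesis -/
theorem rh_of_BUp (hr : analyticOrderAt F (((ω + 1) / 2 : ℝ) : ℂ) = r) {K C : ℝ} (hK : 0 < K)
    (hC : 0 < C) (h : BUp (PP S (Bs : Set S.X) tr ω) K C) :
    ∀ s : ℂ, (ω + 1) / 2 < s.re → F s ≠ 0 := by
  have hAn := an_centre (ω := ω) hd
  have hF := isContB hd he
  obtain ⟨Φ, P, hO, hΛ, hbc, hlim, hne⟩ := Pool.Agent.W524.LV.centre E hB hF hAn hr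
  obtain ⟨u1, h1⟩ := incr_of_BUp hK hC h
  exact rh_of_conv E hB hd he
    (P.conv_of_upper fun ε hε => quad_of_incr (half_pos hK) (abs_nonneg _) h1 hε)

end Growth

end Pool.Agent.W524.SH
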