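import Pool.Agent.W524.SH.Pl
import Pool.Agent.W263.MS.Hardy3

/-! The majorant on vertical lines. -/

set_option autoImplicit false

namespace Pool.Agent.W524.SH

open MeasureTheory Filter Topology Set Classical
open Pool.Agent.W263.BSD Pool.Agent.W263.EP Pool.Agent.W263.MN Pool.Agent.W263.MS
open scoped ENNReal

/-- the majorant -/
noncomputable def Ph (Λ q : ℂ → ℂ) (w : ℂ) : ℂ :=
  ((‖Λ w‖ + √w.re * ‖q w‖ + √w.re / ‖w‖ : ℝ) : ℂ)

theorem Ph_norm (Λ q : ℂ → ℂ) (w : ℂ) :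
    ‖Ph Λ q w‖ = ‖Λ w‖ + √w.re * ‖q w‖ + √w.re / ‖w‖ := by
  unfold Ph
  rw [Complex.norm_real, Real.norm_eq_abs, abs_of_nonneg (by positivity)]

theorem window_Phi {Λ q : ℂ → ℂ} {K1 K2 : ℝ} (hK1 : 0 ≤ K1) (hK2 : 0 ≤ K2)
    (hΛc : ∀ σ : ℝ, 0 < σ → Continuous fun y : ℝ => Λ ((σ : ℂ) + y * Complex.I))
    (hΛ : ∀ σ : ℝ, 0 < σ → σ ≤ 1 → ∀ y0 : ℝ,
      ∫⁻ y in Icc (y0 - 1 / 2) (y0 + 1 / 2), ENNReal.ofReal (‖Λ ((σ : ℂ) + y * Complex.I)‖ ^ 2) ≤
        ENNReal.ofReal (K1 * (1 + |y0|) ^ (1 / 2 : ℝ)))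
    (hq : ∀ σ : ℝ, 0 < σ → σ ≤ 1 → ∀ y0 : ℝ,
      ∫⁻ y in Icc (y0 - 1 / 2) (y0 + 1 / 2),
        ENNReal.ofReal (σ * ‖q ((σ : ℂ) + y * Complex.I)‖ ^ 2) ≤
        ENNReal.ofReal (K2 * (1 + |y0|) ^ (1 / 2 : ℝ))) :
    ∃ K' : ℝ, 0 ≤ K' ∧ ∀ σ : ℝ, 0 < σ → σ ≤ 1 → ∀ y0 : ℝ,
      ∫⁻ y in Icc (y0 - 1 / 2) (y0 + 1 / 2),
        ENNReal.ofReal (‖Ph Λ q ((σ : ℂ) + y * Complex.I)‖ ^ 2) ≤
        ENNReal.ofReal (K' * (1 + |y0|) ^ (1 / 2 : ℝ)) := by
  have hpi := Real.pi_pos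
  refine ⟨3 * (K1 + K2 + Real.pi), by positivity, fun σ hσ hσ1 y0 => ?_⟩
  set Y : ℝ := (1 + |y0|) ^ (1 / 2 : ℝ) with hY
  have hY1 : 1 ≤ Y := Real.one_le_rpow (by linarith [abs_nonneg y0]) (by norm_num)
  have h3 : (3 : ℝ≥0∞) = ENNReal.ofReal 3 := by norm_num
  have hpt : ∀ y : ℝ, ENNReal.ofReal (‖Ph Λ q ((σ : ℂ) + y * Complex.I)‖ ^ 2) ≤
      3 * (ENNReal.ofReal (‖Λ ((σ : ℂ) + y * Complex.I)‖ ^ 2) +
        (ENNReal.ofReal (σ / (σ ^ 2 + (y - 0) ^ 2)) +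
          ENNReal.ofReal (σ * ‖q ((σ : ℂ) + y * Complex.I)‖ ^ 2))) := by
    intro y
    rw [h3, ← ENNReal.ofReal_add (by positivity) (by positivity),
      ← ENNReal.ofReal_add (by positivity) (by positivity), ← ENNReal.ofReal_mul (by norm_num)]
    refine ENNReal.ofReal_le_ofReal ?_
    rw [Ph_norm]
    have e1 : ((σ : ℂ) + y * Complex.I).re = σ := by simp
    rw [e1]
    have e2 := norm_sq_line σ y
    have hn : 0 < ‖(σ : ℂ) + y * Complex.I‖ := by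
      have h4 : 0 < ‖(σ : ℂ) + y * Complex.I‖ ^ 2 := by rw [e2]; positivity
      by_contra h
      have h5 : ‖(σ : ℂ) + y * Complex.I‖ = 0 := le_antisymm (not_lt.mp h) (norm_nonneg _)
      rw [h5] at h4
      norm_num at h4
    have e3 : (√σ / ‖(σ : ℂ) + y * Complex.I‖) ^ 2 = σ / (σ ^ 2 + (y - 0) ^ 2) := by
      rw [div_pow, Real.sq_sqrt hσ.le, e2, sub_zero]
    have e4 : (√σ * ‖q ((σ : ℂ) + y * Complex.I)‖) ^ 2 =
        σ * ‖q ((σ : ℂ) + y * Complex.I)‖ ^ 2 := by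
      rw [mul_pow, Real.sq_sqrt hσ.le]
    rw [← e3, ← e4]
    set a := ‖Λ ((σ : ℂ) + y * Complex.I)‖
    set b := √σ * ‖q ((σ : ℂ) + y * Complex.I)‖
    set c := √σ / ‖(σ : ℂ) + y * Complex.I‖
    nlinarith [sq_nonneg (a - b), sq_nonneg (b - c), sq_nonneg (a - c)]
  have hm1 : Measurable fun y : ℝ => ENNReal.ofReal (‖Λ ((σ : ℂ) + y * Complex.I)‖ ^ 2) :=
    (((hΛc σ hσ).norm).pow 2).measurable.ennreal_ofReal
  have hm2 : Measurable fun y : ℝ => ENNReal.ofReal (σ / (σ ^ 2 + (y - 0) ^ 2)) := by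
    refine ENNReal.measurable_ofReal.comp ?_
    exact (by fun_prop : Measurable fun y : ℝ => σ / (σ ^ 2 + (y - 0) ^ 2))
  refine (setLIntegral_mono' measurableSet_Icc fun y _ => hpt y).trans ?_
  rw [lintegral_const_mul' _ _ (by norm_num), lintegral_add_left hm1, lintegral_add_left hm2]
  have h5 : ∫⁻ y in Icc (y0 - 1 / 2) (y0 + 1 / 2), ENNReal.ofReal (σ / (σ ^ 2 + (y - 0) ^ 2)) ≤
      ENNReal.ofReal Real.pi := by
    refine (setLIntegral_le_lintegral _ _).trans (le_of_eq ?_)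
    rw [← ofReal_integral_eq_lintegral_ofReal (cauchy_int hσ 0).1
      (Eventually.of_forall fun y => by positivity), (cauchy_int hσ 0).2]
  calc _ ≤ 3 * (ENNReal.ofReal (K1 * Y) + (ENNReal.ofReal Real.pi + ENNReal.ofReal (K2 * Y))) := by
        gcongr
        · exact hΛ σ hσ hσ1 y0
        · exact hq σ hσ hσ1 y0
    _ = ENNReal.ofReal (3 * (K1 * Y + (Real.pi + K2 * Y))) := by
        rw [h3, ← ENNReal.ofReal_add (by positivity) (by positivity),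
          ← ENNReal.ofReal_add (by positivity) (by positivity), ← ENNReal.ofReal_mul (by norm_num)]
    _ ≤ _ := by
        refine ENNReal.ofReal_le_ofReal ?_
        nlinarith [mul_le_mul_of_nonneg_left hY1 hpi.le]

/-- the transform of `u D(u)` in terms of the majorant -/
theorem maj_bound {Λ q g g' H : ℂ → ℂ} {ρ L δ M : ℝ} (hδ : 0 < δ)
    (hg : ∀ w : ℂ, 0 < w.re → g w = Λ w - ρ * Complex.log w - L)
    (hg' : ∀ w : ℂ, 0 < w.re → g' w = q w - ρ / w)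
    (hH : ∀ w : ℂ, 0 < w.re → H w = g w / w ^ 2 - g' w / w)
    (hnear : ∀ w : ℂ, 0 < w.re → ‖w‖ < δ → ‖g w‖ ≤ M * ‖w‖)
    (hnear' : ∀ w : ℂ, 0 < w.re → ‖w‖ < δ → ‖g' w‖ ≤ M) :
    ∃ K : ℝ, 0 ≤ K ∧ ∀ σ : ℝ, 0 < σ → σ ≤ 1 → ∀ y : ℝ,
      √σ * ‖H ((σ : ℂ) + y * Complex.I)‖ ≤
      K * (‖Ph Λ q ((σ : ℂ) + y * Complex.I)‖ + (1 + |y|) ^ (1 / 4 : ℝ)) / (1 + |y|) := by
  set K1 : ℝ := 1 + |ρ| * (4 + |Real.log δ| + Real.pi) + |L| with hK1
  have hpi := Real.pi_pos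
  have hK1n : 1 ≤ K1 := by
    have : 0 ≤ |ρ| * (4 + |Real.log δ| + Real.pi) := by positivity
    have := abs_nonneg L
    linarith
  set κ : ℝ := 1 / δ + 1 with hκ
  have hκ1 : 1 ≤ κ := by
    have : 0 < 1 / δ := by positivity
    linarith
  refine ⟨2 * |M| * (1 + δ) + (K1 * (1 / δ) + |ρ| * (1 / δ) + 1) * κ, by positivity,
    fun σ hσ hσ1 y => ?_⟩
  set w : ℂ := (σ : ℂ) + y * Complex.I with hw
  have hwre : w.re = σ := by simp [hw]
  have hwim : w.im = y := by simp [hw]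
  have hw0 : 0 < w.re := by rw [hwre]; exact hσ
  have hwn : 0 < ‖w‖ := norm_pos_iff.mpr fun h => by rw [h] at hw0; simp at hw0
  have hy1 : |y| ≤ ‖w‖ := by rw [← hwim]; exact Complex.abs_im_le_norm w
  have hwle : ‖w‖ ≤ 1 + |y| := by
    rw [hw]
    refine (norm_add_le _ _).trans ?_
    rw [norm_mul, Complex.norm_I, mul_one, Complex.norm_real, Complex.norm_real,
      Real.norm_eq_abs, Real.norm_eq_abs, abs_of_pos hσ]
    linarith
  have h1y : 0 < 1 + |y| := by positivity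
  set Y : ℝ := (1 + |y|) ^ (1 / 4 : ℝ) with hY
  have hY1 : 1 ≤ Y := Real.one_le_rpow (by linarith [abs_nonneg y]) (by norm_num)
  rw [Ph_norm, hwre, hH w hw0]
  have hs0 : 0 < √σ := Real.sqrt_pos.mpr hσ
  have hs1 : √σ ≤ 1 := Real.sqrt_le_one.mpr hσ1
  have hn : ‖g w / w ^ 2 - g' w / w‖ ≤ ‖g w‖ / ‖w‖ ^ 2 + ‖g' w‖ / ‖w‖ := by
    refine (norm_sub_le _ _).trans ?_
    rw [norm_div, norm_div, norm_pow]
  set a := ‖Λ w‖ with ha
  set b := √σ * ‖q w‖ with hb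
  set c := √σ / ‖w‖ with hc
  have ha0 : 0 ≤ a := norm_nonneg _
  have hb0 : 0 ≤ b := by positivity
  have hc0 : 0 ≤ c := by positivity
  rw [le_div_iff₀ h1y]
  rcases lt_or_ge ‖w‖ δ with hlt | hge
  · have h2 := hnear w hw0 hlt
    have h3 := hnear' w hw0 hlt
    have h4 : ‖g w‖ / ‖w‖ ^ 2 ≤ |M| / ‖w‖ := by
      rw [div_le_div_iff₀ (by positivity) hwn]
      have : ‖g w‖ ≤ |M| * ‖w‖ := h2.trans (mul_le_mul_of_nonneg_right (le_abs_self M) hwn.le)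
      calc ‖g w‖ * ‖w‖ ≤ |M| * ‖w‖ * ‖w‖ := by gcongr
        _ = _ := by ring
    have h5 : ‖g' w‖ / ‖w‖ ≤ |M| / ‖w‖ := div_le_div_of_nonneg_right (h3.trans (le_abs_self M)) hwn.le
    have h6 : √σ * ‖g w / w ^ 2 - g' w / w‖ ≤ 2 * |M| * c := by
      calc √σ * ‖g w / w ^ 2 - g' w / w‖ ≤ √σ * (|M| / ‖w‖ + |M| / ‖w‖) := by
            refine mul_le_mul_of_nonneg_left (hn.trans (add_le_add h4 h5)) hs0.le
        _ = _ := by rw [hc]; ring
    have h7 : 1 + |y| ≤ 1 + δ := by linarith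
    calc √σ * ‖g w / w ^ 2 - g' w / w‖ * (1 + |y|) ≤ (2 * |M| * c) * (1 + δ) :=
          mul_le_mul h6 h7 h1y.le (by positivity)
      _ = 2 * |M| * (1 + δ) * c := by ring
      _ ≤ (2 * |M| * (1 + δ) + (K1 * (1 / δ) + |ρ| * (1 / δ) + 1) * κ) * (a + b + c + Y) := by
          have h8 : 0 ≤ (K1 * (1 / δ) + |ρ| * (1 / δ) + 1) * κ := by positivity
          have h9 : 0 ≤ 2 * |M| * (1 + δ) := by positivity
          have h10 : c ≤ a + b + c + Y := by linarith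
          nlinarith [mul_le_mul_of_nonneg_left h10 h9]
  · have hinv : 1 + |y| ≤ κ * ‖w‖ := by
      have h1 : 1 ≤ 1 / δ * ‖w‖ := by rw [one_div, ← div_eq_inv_mul, one_le_div hδ]; exact hge
      rw [hκ]; linarith
    have hlog : ‖Complex.log w‖ ≤ (4 + |Real.log δ| + Real.pi) * Y := by
      have h1 : ‖Complex.log w‖ ≤ |Real.log ‖w‖| + Real.pi := by
        refine (Complex.norm_le_abs_re_add_abs_im _).trans ?_
        rw [Complex.log_re, Complex.log_im]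
        have := Complex.abs_arg_le_pi w
        linarith
      have h2 : |Real.log ‖w‖| ≤ |Real.log δ| + 4 * Y := by
        have h3 : Real.log ‖w‖ ≤ 4 * Y := (Real.log_le_log hwn hwle).trans
          (log_le_qr (by linarith [abs_nonneg y]))
        have h4 : Real.log δ ≤ Real.log ‖w‖ := Real.log_le_log hδ hge
        have h5 := neg_abs_le (Real.log δ)
        have h6 := abs_nonneg (Real.log δ)
        rw [abs_le]
        constructor <;> linarith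
      have h3 : |Real.log δ| ≤ |Real.log δ| * Y := le_mul_of_one_le_right (abs_nonneg _) hY1
      have h4 : Real.pi ≤ Real.pi * Y := le_mul_of_one_le_right hpi.le hY1
      linarith
    have h2 : ‖g w‖ ≤ a + K1 * Y := by
      rw [hg w hw0]
      have h3 : ‖Λ w - ρ * Complex.log w - L‖ ≤ a + |ρ| * ‖Complex.log w‖ + |L| := by
        refine (norm_sub_le _ _).trans ?_
        rw [Complex.norm_real, Real.norm_eq_abs]
        refine add_le_add ((norm_sub_le _ _).trans ?_) le_rfl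
        rw [norm_mul, Complex.norm_real, Real.norm_eq_abs]
      have h4 : |L| ≤ |L| * Y := le_mul_of_one_le_right (abs_nonneg _) hY1
      have h5 := mul_le_mul_of_nonneg_left hlog (abs_nonneg ρ)
      rw [hK1]
      linarith
    have h3 : ‖g' w‖ ≤ ‖q w‖ + |ρ| * (1 / δ) := by
      rw [hg' w hw0]
      refine (norm_sub_le _ _).trans (add_le_add le_rfl ?_)
      rw [norm_div, Complex.norm_real, Real.norm_eq_abs, div_eq_mul_one_div]
      refine mul_le_mul_of_nonneg_left ?_ (abs_nonneg _)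
      exact one_div_le_one_div_of_le hδ hge
    have h4 : ‖g w / w ^ 2 - g' w / w‖ * ‖w‖ ≤ (a + K1 * Y) * (1 / δ) + (‖q w‖ + |ρ| * (1 / δ)) := by
      have h5 : (‖g w‖ / ‖w‖ ^ 2 + ‖g' w‖ / ‖w‖) * ‖w‖ = ‖g w‖ * (1 / ‖w‖) + ‖g' w‖ := by
        field_simp
      calc _ ≤ (‖g w‖ / ‖w‖ ^ 2 + ‖g' w‖ / ‖w‖) * ‖w‖ := mul_le_mul_of_nonneg_right hn hwn.le
        _ = ‖g w‖ * (1 / ‖w‖) + ‖g' w‖ := h5
        _ ≤ _ := by
            refine add_le_add (mul_le_mul h2 (one_div_le_one_div_of_le hδ hge) (by positivity)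
              (by positivity)) h3
    have h5 : √σ * ‖g w / w ^ 2 - g' w / w‖ * (1 + |y|) ≤
        κ * ((a + K1 * Y) * (1 / δ) + (b + |ρ| * (1 / δ))) := by
      calc √σ * ‖g w / w ^ 2 - g' w / w‖ * (1 + |y|) ≤
          √σ * ‖g w / w ^ 2 - g' w / w‖ * (κ * ‖w‖) := by gcongr
        _ = κ * (√σ * (‖g w / w ^ 2 - g' w / w‖ * ‖w‖)) := by ring
        _ ≤ κ * (√σ * ((a + K1 * Y) * (1 / δ) + (‖q w‖ + |ρ| * (1 / δ)))) := by gcongr
        _ = κ * (√σ * ((a + K1 * Y) * (1 / δ) + |ρ| * (1 / δ)) + b) := by rw [hb]; ring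
        _ ≤ κ * (1 * ((a + K1 * Y) * (1 / δ) + |ρ| * (1 / δ)) + b) := by gcongr
        _ = _ := by ring
    refine h5.trans ?_
    have hd0 : 0 < 1 / δ := by positivity
    have h6 : (a + K1 * Y) * (1 / δ) + (b + |ρ| * (1 / δ)) ≤
        (K1 * (1 / δ) + |ρ| * (1 / δ) + 1) * (a + b + c + Y) := by
      have e1 : a * (1 / δ) ≤ K1 * (1 / δ) * a := by
        have := mul_le_mul_of_nonneg_right hK1n (show 0 ≤ a * (1 / δ) by positivity)
        linarith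
      have e2 : |ρ| * (1 / δ) ≤ |ρ| * (1 / δ) * Y :=
        le_mul_of_one_le_right (by positivity) hY1
      have e3 : 0 ≤ K1 * (1 / δ) * (b + c) := by positivity
      have e4 : 0 ≤ |ρ| * (1 / δ) * (a + b + c) := by positivity
      have e5 : 0 ≤ a + c + Y := by positivity
      have e6 : (K1 * (1 / δ) + |ρ| * (1 / δ) + 1) * (a + b + c + Y) =
          K1 * (1 / δ) * a + K1 * (1 / δ) * (b + c) + K1 * Y * (1 / δ) +
          |ρ| * (1 / δ) * (a + b + c) + |ρ| * (1 / δ) * Y + (a + c + Y) + b := by ring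
      have e7 : (a + K1 * Y) * (1 / δ) + (b + |ρ| * (1 / δ)) =
          a * (1 / δ) + K1 * Y * (1 / δ) + b + |ρ| * (1 / δ) := by ring
      rw [e6, e7]
      linarith
    have h7 : 0 ≤ 2 * |M| * (1 + δ) * (a + b + c + Y) := by positivity
    have h8 := mul_le_mul_of_nonneg_left h6 (show 0 ≤ κ by linarith)
    calc _ ≤ κ * ((K1 * (1 / δ) + |ρ| * (1 / δ) + 1) * (a + b + c + Y)) := h8
      _ ≤ _ := by linarith

end Pool.Agent.W524.SH
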