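import Pool.Agent.W263.MS.Pl3
import Pool.Agent.W263.MS.Sq
import Pool.Agent.W263.MN.Kar
import Pool.Agent.W524.SH.Box

/-! Plancherel's formula on a line, and windows for the logarithmic derivative. -/

set_option autoImplicit false

namespace Pool.Agent.W524.SH

open MeasureTheory Filter Topology Set Classical
open Pool.Agent.W263.BSD Pool.Agent.W263.EP Pool.Agent.W263.MN Pool.Agent.W263.MS
open scoped ENNReal FourierTransform

/-- Plancherel's formula on a line -/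
theorem plancherel_eq {h : ℝ → ℝ} (hm : Measurable h) (h0 : ∀ u, u ≤ 0 → h u = 0) (hw : WSq h)
    {σ : ℝ} (hσ : 0 < σ) (hc : Continuous fun y : ℝ => lapC h ((σ : ℂ) + y * Complex.I)) :
    ENNReal.ofReal (2 * Real.pi) *
      ∫⁻ u in Ioi (0 : ℝ), ENNReal.ofReal ((h u * Real.exp (-(σ * u))) ^ 2) =
      ∫⁻ y : ℝ, ENNReal.ofReal (‖lapC h ((σ : ℂ) + y * Complex.I)‖ ^ 2) := by
  obtain ⟨hPi, hP2⟩ := P_of_wsq hm h0 hw hσ
  have hpl := Pool.Agent.Helper76.NormalHP.plancherel_lintegral _ hPi hP2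
  have hmeas : Measurable fun y : ℝ => ENNReal.ofReal (‖lapC h ((σ : ℂ) + y * Complex.I)‖ ^ 2) :=
    ((hc.norm).pow 2).measurable.ennreal_ofReal
  rw [lintegral_two_pi_eq hmeas]
  congr 1
  symm
  calc ∫⁻ ξ : ℝ, ENNReal.ofReal (‖lapC h ((σ : ℂ) + (2 * Real.pi * ξ : ℝ) * Complex.I)‖ ^ 2) =
      ∫⁻ ξ : ℝ, ‖𝓕 (fun u : ℝ => (h u : ℂ) * Complex.exp (-(σ * u))) ξ‖ₑ ^ 2 := by
        refine lintegral_congr fun ξ => ?_
        rw [fourier_P h0 σ ξ, ← ofReal_norm, ← ENNReal.ofReal_pow (norm_nonneg _)]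
    _ = ∫⁻ u : ℝ, ‖(h u : ℂ) * Complex.exp (-(σ * u))‖ₑ ^ 2 := hpl
    _ = ∫⁻ u in Ioi (0 : ℝ), ‖(h u : ℂ) * Complex.exp (-(σ * u))‖ₑ ^ 2 := by
        rw [← lintegral_indicator measurableSet_Ioi]
        refine lintegral_congr fun u => ?_
        by_cases hu : u ∈ Ioi (0 : ℝ)
        · rw [indicator_of_mem hu]
        · rw [indicator_of_notMem hu, h0 u (not_lt.mp hu)]
          simp
    _ = _ := by
        refine lintegral_congr fun u => ?_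
        rw [← ofReal_norm, ← ENNReal.ofReal_pow (norm_nonneg _), norm_mul, Complex.norm_real,
          Complex.norm_exp, mul_pow, mul_pow, Real.norm_eq_abs, sq_abs]
        have e1 : (-((σ : ℂ) * u)).re = -(σ * u) := by simp
        rw [e1]

/-- the integral of the Cauchy kernel -/
theorem cauchy_int {σ : ℝ} (hσ : 0 < σ) (t : ℝ) :
    Integrable (fun y : ℝ => σ / (σ ^ 2 + (y - t) ^ 2)) ∧
      ∫ y : ℝ, σ / (σ ^ 2 + (y - t) ^ 2) = Real.pi := by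
  have e : (fun y : ℝ => σ / (σ ^ 2 + (y - t) ^ 2)) =
      fun y : ℝ => σ⁻¹ * (1 + ((y - t) / σ) ^ 2)⁻¹ := by
    funext y
    have : 0 < σ ^ 2 + (y - t) ^ 2 := by positivity
    field_simp
  have h1 : Integrable (fun y : ℝ => (1 + (y / σ) ^ 2)⁻¹) :=
    integrable_inv_one_add_sq.comp_div hσ.ne'
  have h2 : Integrable (fun y : ℝ => (1 + ((y - t) / σ) ^ 2)⁻¹) := h1.comp_sub_right t
  rw [e]
  refine ⟨h2.const_mul _, ?_⟩
  rw [integral_const_mul, integral_sub_right_eq_self (fun y : ℝ => (1 + (y / σ) ^ 2)⁻¹) t,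
    Measure.integral_comp_div (fun y : ℝ => (1 + y ^ 2)⁻¹) σ, integral_univ_inv_one_add_sq,
    smul_eq_mul, abs_of_pos hσ, ← mul_assoc, inv_mul_cancel₀ hσ.ne', one_mul]

theorem norm_sub_sq_ge {σ y : ℝ} (hσ : 0 < σ) {ρ : ℂ} (hρ : ρ.re ≤ 0) :
    σ ^ 2 + (y - ρ.im) ^ 2 ≤ ‖(σ : ℂ) + y * Complex.I - ρ‖ ^ 2 := by
  rw [← Complex.normSq_eq_norm_sq, Complex.normSq_apply]
  simp
  nlinarith

/-- windows for the logarithmic derivative -/
theorem window_q {q : ℂ → ℂ} {K : ℝ} (hK : 0 ≤ K)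
    (h : ∀ y0 : ℝ, ∃ (n : ℕ) (ρ : Fin n → ℂ), (n : ℝ) ≤ K * (1 + |y0|) ^ (1 / 4 : ℝ) ∧
      (∀ i, (ρ i).re ≤ 0) ∧ ∀ σ : ℝ, 0 < σ → σ ≤ 1 → ∀ y : ℝ, |y - y0| ≤ 1 / 2 →
        ‖q ((σ : ℂ) + y * Complex.I)‖ ≤ K * (1 + |y0|) ^ (1 / 4 : ℝ) +
          ∑ i, 1 / ‖(σ : ℂ) + y * Complex.I - ρ i‖) :
    ∃ K' : ℝ, 0 ≤ K' ∧ ∀ σ : ℝ, 0 < σ → σ ≤ 1 → ∀ y0 : ℝ,
      ∫⁻ y in Icc (y0 - 1 / 2) (y0 + 1 / 2),
        ENNReal.ofReal (σ * ‖q ((σ : ℂ) + y * Complex.I)‖ ^ 2) ≤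
        ENNReal.ofReal (K' * (1 + |y0|) ^ (1 / 2 : ℝ)) := by
  refine ⟨(2 + 2 * Real.pi) * K ^ 2, by positivity, fun σ hσ hσ1 y0 => ?_⟩
  obtain ⟨n, ρ, hn, hre, hq⟩ := h y0
  set Y : ℝ := (1 + |y0|) ^ (1 / 4 : ℝ) with hY
  have hY0 : 0 ≤ Y := by positivity
  have hY2 : (1 + |y0|) ^ (1 / 2 : ℝ) = Y ^ 2 := by
    rw [hY, ← Real.rpow_natCast, ← Real.rpow_mul (by positivity)]
    norm_num
  set I : Fin n → ℝ → ℝ := fun i y => σ / (σ ^ 2 + (y - (ρ i).im) ^ 2) with hI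
  set Bf : ℝ → ℝ := fun y => 2 * K ^ 2 * Y ^ 2 + 2 * n * ∑ i, I i y with hBf
  have hIn : ∀ i y, 0 ≤ I i y := fun i y => by rw [hI]; positivity
  have hpt : ∀ y ∈ Icc (y0 - 1 / 2) (y0 + 1 / 2),
      σ * ‖q ((σ : ℂ) + y * Complex.I)‖ ^ 2 ≤ Bf y := by
    intro y hy
    have h1 := hq σ hσ hσ1 y (by rw [abs_le]; constructor <;> linarith [hy.1, hy.2])
    set T : ℝ := ∑ i, 1 / ‖(σ : ℂ) + y * Complex.I - ρ i‖ with hT
    have hT0 : 0 ≤ T := Finset.sum_nonneg fun i _ => by positivity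
    have h2 : T ^ 2 ≤ n * ∑ i, (1 / ‖(σ : ℂ) + y * Complex.I - ρ i‖) ^ 2 := by
      have := sq_sum_le_card_mul_sum_sq (s := (Finset.univ : Finset (Fin n)))
        (f := fun i => 1 / ‖(σ : ℂ) + y * Complex.I - ρ i‖)
      rw [Finset.card_univ, Fintype.card_fin] at this
      exact this
    have h3 : σ * ∑ i, (1 / ‖(σ : ℂ) + y * Complex.I - ρ i‖) ^ 2 ≤ ∑ i, I i y := by
      rw [Finset.mul_sum]
      refine Finset.sum_le_sum fun i _ => ?_
      have h4 := norm_sub_sq_ge (y := y) hσ (hre i)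
      have h5 : 0 < σ ^ 2 + (y - (ρ i).im) ^ 2 := by positivity
      rw [hI, div_pow, one_pow]
      simp only []
      rw [mul_one_div]
      exact div_le_div_of_nonneg_left hσ.le h5 h4
    calc σ * ‖q ((σ : ℂ) + y * Complex.I)‖ ^ 2 ≤ σ * (K * Y + T) ^ 2 := by
          gcongr
      _ ≤ σ * (2 * (K * Y) ^ 2 + 2 * T ^ 2) := by
          refine mul_le_mul_of_nonneg_left ?_ hσ.le
          nlinarith [sq_nonneg (K * Y - T)]
      _ = σ * (2 * (K * Y) ^ 2) + 2 * (σ * T ^ 2) := by ring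
      _ ≤ 1 * (2 * (K * Y) ^ 2) + 2 * (σ * (n * ∑ i, (1 / ‖(σ : ℂ) + y * Complex.I - ρ i‖) ^ 2)) := by
          gcongr
      _ = 2 * K ^ 2 * Y ^ 2 + 2 * n * (σ * ∑ i, (1 / ‖(σ : ℂ) + y * Complex.I - ρ i‖) ^ 2) := by
          ring
      _ ≤ _ := by
          show _ ≤ 2 * K ^ 2 * Y ^ 2 + 2 * n * ∑ i, I i y
          have := mul_le_mul_of_nonneg_left h3 (show 0 ≤ 2 * (n : ℝ) by positivity)
          linarith
  have hII : ∀ i, Integrable (I i) := fun i => (cauchy_int hσ (ρ i).im).1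
  have hBI : IntegrableOn Bf (Icc (y0 - 1 / 2) (y0 + 1 / 2)) := by
    refine (continuousOn_const.integrableOn_compact isCompact_Icc).add ?_
    exact ((integrable_finsetSum _ fun i _ => hII i).const_mul _).integrableOn
  have hBn : ∀ y, 0 ≤ Bf y := fun y => by
    have := Finset.sum_nonneg fun i (_ : i ∈ (Finset.univ : Finset (Fin n))) => hIn i y
    rw [hBf]; positivity
  refine (setLIntegral_mono' measurableSet_Icc fun y hy =>
    ENNReal.ofReal_le_ofReal (hpt y hy)).trans ?_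
  rw [← ofReal_integral_eq_lintegral_ofReal hBI (Eventually.of_forall hBn)]
  refine ENNReal.ofReal_le_ofReal ?_
  rw [hY2]
  have h6 : ∫ y in Icc (y0 - 1 / 2) (y0 + 1 / 2), Bf y =
      2 * K ^ 2 * Y ^ 2 + 2 * n * ∑ i, ∫ y in Icc (y0 - 1 / 2) (y0 + 1 / 2), I i y := by
    rw [hBf, integral_add (continuousOn_const.integrableOn_compact isCompact_Icc)
      ((integrable_finsetSum _ fun i _ => (hII i)).const_mul _).integrableOn,
      setIntegral_const, integral_const_mul, integral_finsetSum _ fun i _ => (hII i).integrableOn]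
    rw [Measure.real, Real.volume_Icc, ENNReal.toReal_ofReal (by linarith), smul_eq_mul]
    ring
  have h7 : ∀ i, ∫ y in Icc (y0 - 1 / 2) (y0 + 1 / 2), I i y ≤ Real.pi := by
    intro i
    rw [← (cauchy_int hσ (ρ i).im).2]
    exact setIntegral_le_integral (hII i) (Eventually.of_forall (hIn i))
  have h8 : ∑ i, ∫ y in Icc (y0 - 1 / 2) (y0 + 1 / 2), I i y ≤ n * Real.pi := by
    refine (Finset.sum_le_sum fun i _ => h7 i).trans (le_of_eq ?_)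
    simp
  rw [h6]
  have h9 : (n : ℝ) * n ≤ (K * Y) * (K * Y) := mul_le_mul hn hn (by positivity) (by positivity)
  have hpi := Real.pi_pos
  calc 2 * K ^ 2 * Y ^ 2 + 2 * n * ∑ i, ∫ y in Icc (y0 - 1 / 2) (y0 + 1 / 2), I i y ≤
      2 * K ^ 2 * Y ^ 2 + 2 * n * (n * Real.pi) := by gcongr
    _ = 2 * K ^ 2 * Y ^ 2 + 2 * Real.pi * (n * n) := by ring
    _ ≤ 2 * K ^ 2 * Y ^ 2 + 2 * Real.pi * ((K * Y) * (K * Y)) := by gcongr
    _ = _ := by ring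

end Pool.Agent.W524.SH
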