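import Pool.Agent.W524.SH.Phi
import Pool.Agent.W263.MS.Main

/-! The rate of the mean square under the Riemann hypothesis. -/

set_option autoImplicit false

namespace Pool.Agent.W524.SH

open MeasureTheory Filter Topology Set Classical
open Pool.Agent.W263.BSD
open Pool.Agent.W263.EP Pool.Agent.W263.MN Pool.Agent.W263.LG Pool.Agent.W263.MS
open Pool.Agent.H341R2 (NormSys)
open scoped ENNReal

variable {S : NormSys} {Bs : Finset S.X} {bad : Set S.X} {tr : S.X → ℕ → ℝ} {ω : ℝ} {D : ℝ}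
  {F : ℂ → ℂ} {ρ L : ℝ} {n : ℤ}

/-- **Weighted mean square bound.** -/
theorem rate_of_RH (E : TData S (tn S (Bs : Set S.X) tr ω) D)
    (hF : IsFull S (Bs : Set S.X) tr ω F)
    (hd : ∀ s : ℂ, (ω + 1) / 2 - 1 < s.re → DifferentiableAt ℂ F s)
    (hn : meromorphicOrderAt F (((ω + 1) / 2 : ℝ) : ℂ) = n) (hL : CLim ((ω + 1) / 2) F n L)
    (hg : ∃ (C : ℝ) (A : ℕ), ∀ s : ℂ, (ω + 1) / 2 - 1 < s.re → ‖F s‖ ≤ C * (1 + ‖s‖) ^ A) :
    ∃ C : ℝ, 0 ≤ C ∧ ∀ σ : ℝ, 0 < σ → σ ≤ 1 → ∫⁻ u in Ioi (0 : ℝ),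
      ENNReal.ofReal ((u * rem (ap S (tn S (Bs : Set S.X) tr ω)) n L 0 u *
        Real.exp (-(σ * u))) ^ 2) ≤ ENNReal.ofReal (C / σ) := by
  have P := pair E
  have hsq := ms_of_RH E hF hd hn hL hg
  obtain ⟨C, A, hC⟩ := hg
  have hcre : ((((ω + 1) / 2 : ℝ)) : ℂ).re = (ω + 1) / 2 := Complex.ofReal_re _
  have hA : AnalyticAt ℂ F (((ω + 1) / 2 : ℝ) : ℂ) := by
    refine Complex.analyticAt_iff_eventually_differentiableAt.mpr ?_
    filter_upwards [(isOpen_half ((ω + 1) / 2 - 1)).mem_nhds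
      (show (ω + 1) / 2 - 1 < ((((ω + 1) / 2 : ℝ)) : ℂ).re by rw [hcre]; linarith)] with z hz
      using hd z hz
  have hm : MeromorphicAt F (((ω + 1) / 2 : ℝ) : ℂ) := hA.meromorphicAt
  obtain ⟨⟨C1, hC1⟩, _⟩ := growth_rem E hF hm hn hL ⟨C, A, fun s hs => hC s (by linarith)⟩
  have hlow := lower_rem (S := S) (k := 1) (K := C1) (ρ := n) (L := L)
    (hC1.mono fun x hx => (abs_le.mp hx).1)
  have hconv := conv_of_rem (dataP E hF.isCont) hlow
  set a := ap S (tn S (Bs : Set S.X) tr ω) with ha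
  set D0 : ℝ → ℝ := rem a n L 0 with hD0
  have hrem : ∀ u, 0 < u → Pool.Agent.W263.EP.intU D0 u = rem a n L 1 u := fun u hu => rem_intU P.am P.al 0 hu
  have hlapC : ∀ w : ℂ, lapC (Pool.Agent.W263.EP.intU D0) w = lapC (rem a n L 1) w := by
    intro w
    unfold lapC
    refine setIntegral_congr_fun measurableSet_Ioi fun u hu => ?_
    simp only [hrem u hu]
  have hLI : ∀ w > 0, LInt (Pool.Agent.W263.EP.intU D0) w := fun w hw =>
    (LInt_congr fun u hu => (hrem u hu)).mpr ((rem_LInt hw).mpr (hconv w hw))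
  -- the functions
  set f : ℂ → ℂ := fun w => F (((ω : ℂ) + 1) / 2 + w) with hf
  have hreadd : ∀ w : ℂ, (((ω : ℂ) + 1) / 2 + w).re = (ω + 1) / 2 + w.re := fun w => by
    rw [Complex.add_re, ← c_cast, Complex.ofReal_re]
  have hLd : ∀ w : ℂ, 0 < w.re → HasDerivAt (Lam S (Bs : Set S.X) tr ω) (deriv f w / f w) w :=
    fun w hw => Lam_deriv E hF hconv hw
  obtain ⟨KL, hKL⟩ := Lam_bdd E
  obtain ⟨m, hm0, hmlow⟩ := LF_low E
  have hfd : ∀ w : ℂ, -1 < w.re → DifferentiableAt ℂ f w := fun w hw => by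
    have h1 := hd (((ω : ℂ) + 1) / 2 + w) (by rw [hreadd]; linarith)
    exact DifferentiableAt.comp (g := F) w h1 (by fun_prop)
  have hf0 : ∀ w : ℂ, 0 < w.re → f w ≠ 0 := fun w hw => hF.2.1 _ (by rw [hreadd]; linarith)
  have hfg : ∀ w : ℂ, -1 < w.re → ‖f w‖ ≤ |C| * (1 + ‖((ω : ℂ) + 1) / 2‖) ^ A * (1 + ‖w‖) ^ A :=
    fun w hw => by
      have h1 := hC (((ω : ℂ) + 1) / 2 + w) (by rw [hreadd]; linarith)
      refine h1.trans ?_
      have h2 : 1 + ‖((ω : ℂ) + 1) / 2 + w‖ ≤ (1 + ‖((ω : ℂ) + 1) / 2‖) * (1 + ‖w‖) := by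
        have := norm_add_le (((ω : ℂ) + 1) / 2) w
        have : 0 ≤ ‖((ω : ℂ) + 1) / 2‖ * ‖w‖ := by positivity
        linarith
      calc C * (1 + ‖((ω : ℂ) + 1) / 2 + w‖) ^ A ≤ |C| * (1 + ‖((ω : ℂ) + 1) / 2 + w‖) ^ A :=
            mul_le_mul_of_nonneg_right (le_abs_self C) (by positivity)
        _ ≤ |C| * ((1 + ‖((ω : ℂ) + 1) / 2‖) * (1 + ‖w‖)) ^ A := by gcongr
        _ = _ := by rw [mul_pow]; ring
  have hflow : ∀ w : ℂ, w.re = 2 → m ≤ ‖f w‖ := fun w hw => by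
    have h1 := hmlow (((ω : ℂ) + 1) / 2 + w) (by rw [hreadd, hw])
    rw [← hF.2.2 (((ω : ℂ) + 1) / 2 + w) (by rw [hreadd, hw]; linarith)] at h1
    exact h1
  obtain ⟨K, hK0, hK⟩ := ptw (f := f) (Λ := Lam S (Bs : Set S.X) tr ω)
    (C := |C| * (1 + ‖((ω : ℂ) + 1) / 2‖) ^ A) (A := A) hm0 hfd hf0 hfg hflow hLd hKL
  obtain ⟨K', hK'0, hK'⟩ := window_sq hK0 hK
  obtain ⟨Kb, hKb0, hKb⟩ := logder_box (f := f)
    (C := |C| * (1 + ‖((ω : ℂ) + 1) / 2‖) ^ A) (A := A) hm0 hfd hf0 hfg hflow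
  obtain ⟨Kq, hKq0, hKq⟩ := window_q (q := fun w => deriv f w / f w) hKb0 hKb
  -- near the centre
  obtain ⟨δ, hδ, M, hM⟩ := near_centre (c := (ω + 1) / 2) (G := F) hm hn
    (fun s hs => hd s (by linarith)) (fun s _ => rfl)
  set g : ℂ → ℂ := fun w => Lam S (Bs : Set S.X) tr ω w - (n : ℝ) * Complex.log w - L with hgdef
  have hgd : ∀ w : ℂ, 0 < w.re → HasDerivAt g (deriv f w / f w - n / w) w := by
    intro w hw
    have h1 := (hLd w hw).sub
      ((Complex.hasDerivAt_log (Or.inl hw)).const_mul (((n : ℝ) : ℂ)))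
    have h2 := h1.sub_const (L : ℂ)
    refine h2.congr_deriv ?_
    push_cast
    rw [div_eq_mul_inv (n : ℂ) w]
  have hgzero : Tendsto (fun x : ℝ => g x) (𝓝[>] 0) (𝓝 0) := by
    have h1 : LimL (fun w => F (((ω : ℂ) + 1) / 2 + w)) n L := hL.shift
    have h2 : Tendsto (fun w : ℝ => w ^ 2 * lap (rem a n L 1) w) (𝓝[>] 0) (𝓝 0) :=
      (limL_iff (k := 1) (dataP E hF.isCont) hconv).mp h1
    have h3 : Tendsto (fun w : ℝ => ((w ^ 2 * lap (rem a n L 1) w : ℝ) : ℂ)) (𝓝[>] 0)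
        (𝓝 ((0 : ℝ) : ℂ)) := (Complex.continuous_ofReal.tendsto 0).comp h2
    rw [Complex.ofReal_zero] at h3
    refine h3.congr' ?_
    filter_upwards [self_mem_nhdsWithin] with x hx
    have hx0 : (0 : ℝ) < x := hx
    have h4 := lapC_rem (ρ := n) (L := L) hconv (w := (x : ℂ)) (by simpa using hx0)
    rw [lapC_ofReal] at h4
    rw [hgdef]
    simp only []
    rw [← h4]
    push_cast
    rfl
  have hnear' : ∀ w : ℂ, 0 < w.re → ‖w‖ < δ → ‖deriv f w / f w - n / w‖ ≤ M := by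
    intro z hz hzδ
    have h1 := hM (((ω : ℂ) + 1) / 2 + z) (by rw [hreadd]; linarith) (by
      rw [c_cast, add_sub_cancel_left]; exact hzδ)
    rw [c_cast, add_sub_cancel_left] at h1
    have h2 : deriv f z = deriv F (((ω : ℂ) + 1) / 2 + z) := by
      rw [hf]
      exact deriv_comp_const_add _ _ _
    rw [h2]
    exact h1
  have hnear : ∀ w : ℂ, 0 < w.re → ‖w‖ < δ → ‖g w‖ ≤ M * ‖w‖ := by
    intro w hw hwδ
    exact near_zero hδ (fun z hz _ => hgd z hz) hnear' hgzero hw hwδ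
  -- the transform of the remainder
  have W0 : WSq D0 := wsq_of_sq hsq
  have I0 : ∀ w > 0, LInt D0 w := fun w hw => LInt_of_sq (rem_meas P.am 0) W0 hw
  have I0' : ∀ w > 0, LInt (fun u => u * D0 u) w := fun w hw =>
    LInt_id_mul (rem_meas P.am 0) (show w / 2 < w by linarith) (I0 _ (by positivity))
  have hgl : ∀ w : ℂ, 0 < w.re → g w = w * lapC D0 w := by
    intro w hw
    have h1 := lapC_rem (ρ := n) (L := L) hconv hw
    have h2 := lapC_intU (rem_meas P.am 0) I0 hw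
    rw [hlapC] at h2
    rw [hgdef]
    simp only []
    rw [← h1, ← h2]
    ring
  have hH : ∀ w : ℂ, 0 < w.re → lapC (fun u => u * D0 u) w =
      g w / w ^ 2 - (deriv f w / f w - n / w) / w := by
    intro w hw
    have hw0 : w ≠ 0 := fun h => by rw [h] at hw; simp at hw
    have h1 := lapC_hasDerivAt (rem_meas P.am 0) (s := 0) (fun w hw => I0 w hw) hw
    have h2 : HasDerivAt (fun z => g z / z) (((deriv f w / f w - n / w) * w - g w * 1) / w ^ 2) w :=
      (hgd w hw).div (hasDerivAt_id w) hw0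
    have h3 : (fun z => g z / z) =ᶠ[𝓝 w] lapC D0 := by
      filter_upwards [(isOpen_half 0).mem_nhds (show w ∈ {z : ℂ | 0 < z.re} from hw)] with z hz
      have hz0 : z ≠ 0 := fun h => by
        rw [h] at hz
        have hz' : (0 : ℝ) < (0 : ℂ).re := hz
        simp at hz'
      rw [hgl z hz, mul_div_cancel_left₀ _ hz0]
    have h4 := (h2.congr_of_eventuallyEq h3.symm).unique h1
    have h5 : lapC (fun u => u * D0 u) w = -(((deriv f w / f w - n / w) * w - g w * 1) / w ^ 2) := by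
      rw [h4, neg_neg]
    rw [h5]
    field_simp
    ring
  obtain ⟨K2, hK20, hK2⟩ := maj_bound (Λ := Lam S (Bs : Set S.X) tr ω)
    (q := fun w => deriv f w / f w) (g := g) (g' := fun w => deriv f w / f w - n / w)
    (H := lapC (fun u => u * D0 u)) (ρ := n) (L := L) hδ (fun w _ => rfl)
    (fun w _ => by push_cast; rfl) hH hnear hnear'
  have hΛc : ∀ σ : ℝ, 0 < σ → Continuous fun y : ℝ =>
      Lam S (Bs : Set S.X) tr ω ((σ : ℂ) + y * Complex.I) := by
    intro σ hσ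
    refine continuous_iff_continuousAt.mpr fun y => ?_
    have h1 := (hLd ((σ : ℂ) + y * Complex.I) (by simpa using hσ)).continuousAt
    exact ContinuousAt.comp (f := fun y : ℝ => (σ : ℂ) + y * Complex.I) h1
      (by fun_prop : Continuous fun y : ℝ => (σ : ℂ) + y * Complex.I).continuousAt
  have hcont : ∀ σ : ℝ, 0 < σ → Continuous fun y : ℝ =>
      lapC (fun u => u * D0 u) ((σ : ℂ) + y * Complex.I) := by
    intro σ hσ
    refine continuous_iff_continuousAt.mpr fun y => ?_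
    have h1 : ContinuousAt (lapC (fun u => u * D0 u)) ((σ : ℂ) + y * Complex.I) :=
      (lapC_differentiableAt (measurable_id.mul (rem_meas P.am 0)) I0' (by simpa using hσ)).continuousAt
    exact ContinuousAt.comp (f := fun y : ℝ => (σ : ℂ) + y * Complex.I) h1
      (by fun_prop : Continuous fun y : ℝ => (σ : ℂ) + y * Complex.I).continuousAt
  obtain ⟨K3, hK30, hK3⟩ := window_Phi (Λ := Lam S (Bs : Set S.X) tr ω)
    (q := fun w => deriv f w / f w) hK'0 hKq0 hΛc hK' hKq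
  obtain ⟨C3, hC3⟩ := glob_sq (Λ := Ph (Lam S (Bs : Set S.X) tr ω) (fun w => deriv f w / f w))
    (G := fun w => ((√w.re : ℝ) : ℂ) * lapC (fun u => u * D0 u) w) hK20 hK30
    (fun σ hσ => by
      have e : (fun y : ℝ => ((√((σ : ℂ) + y * Complex.I).re : ℝ) : ℂ) *
          lapC (fun u => u * D0 u) ((σ : ℂ) + y * Complex.I)) =
          fun y : ℝ => ((√σ : ℝ) : ℂ) * lapC (fun u => u * D0 u) ((σ : ℂ) + y * Complex.I) := by
        funext y
        simp
      rw [e]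
      exact continuous_const.mul (hcont σ hσ))
    (fun σ hσ hσ1 y => by
      have e : ((σ : ℂ) + y * Complex.I).re = σ := by simp
      rw [norm_mul, Complex.norm_real, Real.norm_eq_abs, abs_of_nonneg (Real.sqrt_nonneg _), e]
      exact hK2 σ hσ hσ1 y) hK3
  refine ⟨|C3|, abs_nonneg _, fun σ hσ hσ1 => ?_⟩
  -- Plancherel
  set h : ℝ → ℝ := (Ioi (0 : ℝ)).indicator (fun u => u * D0 u) with hh
  have hhm : Measurable h := (measurable_id.mul (rem_meas P.am 0)).indicator measurableSet_Ioi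
  have hh0 : ∀ u, u ≤ 0 → h u = 0 := fun u hu => indicator_of_notMem (not_lt.mpr hu) _
  have hhe : ∀ u, 0 < u → h u = u * D0 u := fun u hu => indicator_of_mem hu _
  have hhl : ∀ w : ℂ, lapC h w = lapC (fun u => u * D0 u) w := fun w => lapC_congr' hhe
  have hW : WSq h := by
    intro τ hτ
    have hb : ∫⁻ u in Ioi (0 : ℝ), ENNReal.ofReal (1 / τ ^ 2) * ENNReal.ofReal (D0 u ^ 2) < ⊤ := by
      rw [lintegral_const_mul' _ _ ENNReal.ofReal_ne_top]
      exact ENNReal.mul_lt_top ENNReal.ofReal_lt_top hsq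
    refine lt_of_le_of_lt (setLIntegral_mono' measurableSet_Ioi fun u hu => ?_) hb
    · have hu0 : (0 : ℝ) < u := hu
      rw [← ENNReal.ofReal_mul (by positivity)]
      refine ENNReal.ofReal_le_ofReal ?_
      rw [hhe u hu0]
      have h1 : u * Real.exp (-(τ * u)) ≤ 1 / τ := by
        rw [le_div_iff₀ hτ, Real.exp_neg]
        have h2 : τ * u ≤ Real.exp (τ * u) := by
          have := Real.add_one_le_exp (τ * u)
          linarith
        have h3 := Real.exp_pos (τ * u)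
        rw [show u * (Real.exp (τ * u))⁻¹ * τ = (τ * u) / Real.exp (τ * u) by
          rw [div_eq_mul_inv]; ring, div_le_one h3]
        exact h2
      have h2 : 0 ≤ u * Real.exp (-(τ * u)) := by positivity
      calc (u * D0 u * Real.exp (-(τ * u))) ^ 2 = (u * Real.exp (-(τ * u))) ^ 2 * D0 u ^ 2 := by
            ring
        _ ≤ (1 / τ) ^ 2 * D0 u ^ 2 := by gcongr
        _ = _ := by rw [div_pow, one_pow]
  have hpl := plancherel_eq hhm hh0 hW hσ (by simpa only [hhl] using hcont σ hσ)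
  simp only [hhl] at hpl
  have h1 : ∫⁻ u in Ioi (0 : ℝ), ENNReal.ofReal ((u * D0 u * Real.exp (-(σ * u))) ^ 2) =
      ∫⁻ u in Ioi (0 : ℝ), ENNReal.ofReal ((h u * Real.exp (-(σ * u))) ^ 2) := by
    refine setLIntegral_congr_fun measurableSet_Ioi fun u hu => ?_
    simp only [hhe u hu]
  rw [h1]
  have h2 : ENNReal.ofReal σ * ∫⁻ y : ℝ,
      ENNReal.ofReal (‖lapC (fun u => u * D0 u) ((σ : ℂ) + y * Complex.I)‖ ^ 2) ≤
      ENNReal.ofReal |C3| := by
    refine le_trans (le_of_eq ?_) ((hC3 σ hσ hσ1).trans (ENNReal.ofReal_le_ofReal (le_abs_self _)))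
    rw [← lintegral_const_mul' _ _ ENNReal.ofReal_ne_top]
    refine lintegral_congr fun y => ?_
    have e : ((σ : ℂ) + y * Complex.I).re = σ := by simp
    rw [← ENNReal.ofReal_mul hσ.le, norm_mul, Complex.norm_real, Real.norm_eq_abs, e, mul_pow,
      sq_abs, Real.sq_sqrt hσ.le]
  have h3 : ∫⁻ u in Ioi (0 : ℝ), ENNReal.ofReal ((h u * Real.exp (-(σ * u))) ^ 2) ≤
      ENNReal.ofReal (2 * Real.pi) *
        ∫⁻ u in Ioi (0 : ℝ), ENNReal.ofReal ((h u * Real.exp (-(σ * u))) ^ 2) := by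
    refine le_mul_of_one_le_left' ?_
    rw [ENNReal.one_le_ofReal]
    linarith [Real.pi_gt_three]
  rw [hpl] at h3
  refine h3.trans ?_
  have h4 : ENNReal.ofReal |C3| * ENNReal.ofReal (1 / σ) = ENNReal.ofReal (|C3| / σ) := by
    rw [← ENNReal.ofReal_mul (abs_nonneg _), mul_one_div]
  rw [← h4]
  have h5 := mul_le_mul' h2 (le_refl (ENNReal.ofReal (1 / σ)))
  refine le_trans (le_of_eq ?_) h5
  rw [mul_comm (ENNReal.ofReal σ), mul_assoc, ← ENNReal.ofReal_mul hσ.le, mul_one_div_cancel hσ.ne',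
    ENNReal.ofReal_one, mul_one]

end Pool.Agent.W524.SH
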